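import Mathlib

set_option autoImplicit false
set_option linter.unusedSectionVars false

open MeasureTheory Filter Topology

namespace Pool.Agent.H299Z.Gr

variable {α : Type*} [MeasurableSpace α]

theorem intg {β : Type*} [MeasurableSpace β] {ν : Measure β} [IsFiniteMeasure ν] {f : β → ℝ}
    (hf : Measurable f) (C : ℝ) (hC : ∀ x, |f x| ≤ C) : Integrable f ν :=
  Integrable.of_bound hf.aestronglyMeasurable C (Eventually.of_forall fun x => by
    simpa [Real.norm_eq_abs] using hC x)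

theorem int_add3 {β : Type*} [MeasurableSpace β] {ν : Measure β} {f g h : β → ℝ}
    (hf : Integrable f ν) (hg : Integrable g ν) (hh : Integrable h ν) :
    ∫ x, f x + g x + h x ∂ν = ∫ x, f x ∂ν + ∫ x, g x ∂ν + ∫ x, h x ∂ν := by
  rw [integral_add (f := fun x => f x + g x) (hf.add hg) hh, integral_add hf hg]

/-- measurable kernels bounded by one in absolute value -/
structure Kb (A : α → α → ℝ) : Prop where
  meas : Measurable fun z : α × α => A z.1 z.2
  bdd : ∀ x y, |A x y| ≤ 1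

/-- measurable kernels with values in the unit interval -/
structure K01 (A : α → α → ℝ) : Prop where
  meas : Measurable fun z : α × α => A z.1 z.2
  nonneg : ∀ x y, 0 ≤ A x y
  le_one : ∀ x y, A x y ≤ 1

theorem K01.kb {A : α → α → ℝ} (h : K01 A) : Kb A :=
  ⟨h.meas, fun x y => abs_le.2 ⟨by linarith [h.nonneg x y], h.le_one x y⟩⟩

theorem K01.sub_kb {A B : α → α → ℝ} (hA : K01 A) (hB : K01 B) : Kb fun x y => A x y - B x y :=
  ⟨hA.meas.sub hB.meas, fun x y => abs_le.2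
    ⟨by linarith [hA.nonneg x y, hB.le_one x y], by linarith [hB.nonneg x y, hA.le_one x y]⟩⟩

theorem k01_one : K01 fun (_ _ : α) => (1 : ℝ) :=
  ⟨measurable_const, fun _ _ => zero_le_one, fun _ _ => le_rfl⟩

theorem Kb.comp {A : α → α → ℝ} (h : Kb A) {β : Type*} [MeasurableSpace β] {f g : β → α}
    (hf : Measurable f) (hg : Measurable g) : Measurable fun b => A (f b) (g b) :=
  h.meas.comp (hf.prodMk hg)

theorem Kb.flip {A : α → α → ℝ} (h : Kb A) : Kb fun x y => A y x :=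
  ⟨h.comp measurable_snd measurable_fst, fun x y => h.bdd y x⟩

theorem K01.flip {A : α → α → ℝ} (h : K01 A) : K01 fun x y => A y x :=
  ⟨h.kb.flip.meas, fun x y => h.nonneg y x, fun x y => h.le_one y x⟩

variable (μ : Measure α) [IsProbabilityMeasure μ]

/-- the trilinear triangle form -/
noncomputable def Tri (A B C : α → α → ℝ) : ℝ :=
  ∫ q : α × α × α, A q.1 q.2.1 * B q.2.1 q.2.2 * C q.1 q.2.2 ∂(μ.prod (μ.prod μ))

theorem tri_meas {A B C : α → α → ℝ} (hA : Kb A) (hB : Kb B) (hC : Kb C) :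
    Measurable fun q : α × α × α => A q.1 q.2.1 * B q.2.1 q.2.2 * C q.1 q.2.2 :=
  ((hA.comp measurable_fst measurable_snd.fst).mul
    (hB.comp measurable_snd.fst measurable_snd.snd)).mul (hC.comp measurable_fst measurable_snd.snd)

theorem tri_bdd {A B C : α → α → ℝ} (hA : Kb A) (hB : Kb B) (hC : Kb C) (x y z : α) :
    |A x y * B y z * C x z| ≤ 1 := by
  rw [abs_mul, abs_mul]
  have h1 := hA.bdd x y
  have h2 := hB.bdd y z
  have h3 := hC.bdd x z
  have h4 : |A x y| * |B y z| ≤ 1 := mul_le_one₀ h1 (abs_nonneg _) h2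
  exact mul_le_one₀ h4 (abs_nonneg _) h3

theorem tri_intg {A B C : α → α → ℝ} (hA : Kb A) (hB : Kb B) (hC : Kb C) :
    Integrable (fun q : α × α × α => A q.1 q.2.1 * B q.2.1 q.2.2 * C q.1 q.2.2)
      (μ.prod (μ.prod μ)) :=
  intg (tri_meas hA hB hC) 1 fun _ => tri_bdd hA hB hC _ _ _

theorem mp_swap23 : MeasurePreserving (fun q : α × α × α => (q.1, q.2.2, q.2.1))
    (μ.prod (μ.prod μ)) (μ.prod (μ.prod μ)) :=
  (MeasurePreserving.id μ).prod (Measure.measurePreserving_swap (μ := μ) (ν := μ))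

theorem mp_swap12 : MeasurePreserving (fun q : α × α × α => (q.2.1, q.1, q.2.2))
    (μ.prod (μ.prod μ)) (μ.prod (μ.prod μ)) := by
  have h1 := (measurePreserving_prodAssoc μ μ μ).symm
  have h2 := (Measure.measurePreserving_swap (μ := μ) (ν := μ)).prod (MeasurePreserving.id μ)
  have h3 := measurePreserving_prodAssoc μ μ μ
  exact (h3.comp h2).comp h1

theorem integral_mp {β γ : Type*} [MeasurableSpace β] [MeasurableSpace γ] {ν : Measure β}
    {ρ : Measure γ} {f : β → γ} (hf : MeasurePreserving f ν ρ) {F : γ → ℝ} (hF : Measurable F) :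
    ∫ b, F (f b) ∂ν = ∫ c, F c ∂ρ := by
  rw [← hf.map_eq, integral_map hf.measurable.aemeasurable hF.aestronglyMeasurable]

theorem tri_swap23 {A B C : α → α → ℝ} (hA : Kb A) (hB : Kb B) (hC : Kb C) :
    Tri μ A B C = Tri μ C (fun x y => B y x) A := by
  unfold Tri
  rw [← integral_mp (mp_swap23 μ) (tri_meas hA hB hC)]
  exact integral_congr_ae (Eventually.of_forall fun q => by ring)

theorem tri_swap12 {A B C : α → α → ℝ} (hA : Kb A) (hB : Kb B) (hC : Kb C) :
    Tri μ A B C = Tri μ (fun x y => A y x) C B := by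
  unfold Tri
  rw [← integral_mp (mp_swap12 μ) (tri_meas hA hB hC)]
  exact integral_congr_ae (Eventually.of_forall fun q => by ring)

/-- `D` has cut norm (tested against functions with values in the unit interval) at most `ε` -/
def CutLe (D : α → α → ℝ) (ε : ℝ) : Prop :=
  ∀ f g : α → ℝ, Measurable f → Measurable g → (∀ x, 0 ≤ f x ∧ f x ≤ 1) → (∀ x, 0 ≤ g x ∧ g x ≤ 1) →
    |∫ z : α × α, D z.1 z.2 * (f z.1 * g z.2) ∂(μ.prod μ)| ≤ ε

theorem CutLe.flip {D : α → α → ℝ} {ε : ℝ} (h : CutLe μ D ε) : CutLe μ (fun x y => D y x) ε := by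
  intro f g hf hg hf1 hg1
  have := h g f hg hf hg1 hf1
  rw [← integral_prod_swap] at this
  simpa [mul_comm] using this

theorem tri_cut2 {A D C : α → α → ℝ} (hA : K01 A) (hD : Kb D) (hC : K01 C) {ε : ℝ}
    (h : CutLe μ D ε) : |Tri μ A D C| ≤ ε := by
  unfold Tri
  rw [integral_prod _ (tri_intg μ hA.kb hD hC.kb)]
  have key : ∀ x : α, ‖∫ w : α × α, A x w.1 * D w.1 w.2 * C x w.2 ∂(μ.prod μ)‖ ≤ ε := by
    intro x
    have := h (A x) (C x) (hA.kb.comp measurable_const measurable_id)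
      (hC.kb.comp measurable_const measurable_id) (fun y => ⟨hA.nonneg x y, hA.le_one x y⟩)
      (fun y => ⟨hC.nonneg x y, hC.le_one x y⟩)
    rw [Real.norm_eq_abs]
    convert this using 3
    funext w
    ring
  have := norm_integral_le_of_norm_le_const (μ := μ) (Eventually.of_forall key)
  simpa [Real.norm_eq_abs] using this

theorem tri_cut3 {A B D : α → α → ℝ} (hA : K01 A) (hB : K01 B) (hD : Kb D) {ε : ℝ}
    (h : CutLe μ D ε) : |Tri μ A B D| ≤ ε := by
  rw [tri_swap12 μ hA.kb hB.kb hD]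
  exact tri_cut2 μ hA.flip hD hB h

theorem tri_cut1 {D B C : α → α → ℝ} (hD : Kb D) (hB : K01 B) (hC : K01 C) {ε : ℝ}
    (h : CutLe μ D ε) : |Tri μ D B C| ≤ ε := by
  rw [tri_swap23 μ hD hB.kb hC.kb]
  exact tri_cut3 μ hC hB.flip hD h

/-- counting lemma -/
theorem tri_count {A B C A' B' C' : α → α → ℝ} (hA : K01 A) (hB : K01 B) (hC : K01 C)
    (hA' : K01 A') (hB' : K01 B') (hC' : K01 C') {ε : ℝ}
    (h1 : CutLe μ (fun x y => A x y - A' x y) ε) (h2 : CutLe μ (fun x y => B x y - B' x y) ε)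
    (h3 : CutLe μ (fun x y => C x y - C' x y) ε) :
    |Tri μ A B C - Tri μ A' B' C'| ≤ 3 * ε := by
  have e1 := tri_cut1 μ (hA.sub_kb hA') hB hC h1
  have e2 := tri_cut2 μ hA' (hB.sub_kb hB') hC h2
  have e3 := tri_cut3 μ hA' hB' (hC.sub_kb hC') h3
  have : Tri μ A B C - Tri μ A' B' C' = Tri μ (fun x y => A x y - A' x y) B C +
      Tri μ A' (fun x y => B x y - B' x y) C + Tri μ A' B' (fun x y => C x y - C' x y) := by
    unfold Tri
    rw [← integral_sub (tri_intg μ hA.kb hB.kb hC.kb) (tri_intg μ hA'.kb hB'.kb hC'.kb),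
      ← int_add3 (tri_intg μ (hA.sub_kb hA') hB.kb hC.kb)
        (tri_intg μ hA'.kb (hB.sub_kb hB') hC.kb) (tri_intg μ hA'.kb hB'.kb (hC.sub_kb hC'))]
    exact integral_congr_ae (Eventually.of_forall fun q => by ring)
  rw [this]
  have := abs_add_three (Tri μ (fun x y => A x y - A' x y) B C)
    (Tri μ A' (fun x y => B x y - B' x y) C) (Tri μ A' B' (fun x y => C x y - C' x y))
  linarith

/-- Cauchy-Schwarz for bounded measurable functions -/
theorem cs_sq {β : Type*} [MeasurableSpace β] (ν : Measure β) [IsFiniteMeasure ν] {f g : β → ℝ}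
    (hf : Measurable f) (hg : Measurable g) (hf1 : ∀ x, |f x| ≤ 1) (hg1 : ∀ x, |g x| ≤ 1) :
    (∫ x, f x * g x ∂ν) ^ 2 ≤ (∫ x, f x ^ 2 ∂ν) * ∫ x, g x ^ 2 ∂ν := by
  have i1 : Integrable (fun x => f x ^ 2) ν := intg (hf.pow_const 2) 1 fun x => by
    rw [abs_pow]; exact pow_le_one₀ (abs_nonneg _) (hf1 x)
  have i2 : Integrable (fun x => g x ^ 2) ν := intg (hg.pow_const 2) 1 fun x => by
    rw [abs_pow]; exact pow_le_one₀ (abs_nonneg _) (hg1 x)
  have i3 : Integrable (fun x => f x * g x) ν := intg (hf.mul hg) 1 fun x => by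
    rw [abs_mul]; exact mul_le_one₀ (hf1 x) (abs_nonneg _) (hg1 x)
  have key : ∀ t : ℝ, 0 ≤ (∫ x, f x ^ 2 ∂ν) * (t * t) + (2 * ∫ x, f x * g x ∂ν) * t +
      ∫ x, g x ^ 2 ∂ν := by
    intro t
    have h0 : 0 ≤ ∫ x, (t * f x + g x) ^ 2 ∂ν := integral_nonneg fun x => sq_nonneg _
    have : ∫ x, (t * f x + g x) ^ 2 ∂ν = (∫ x, f x ^ 2 ∂ν) * (t * t) +
        (2 * ∫ x, f x * g x ∂ν) * t + ∫ x, g x ^ 2 ∂ν := by
      have e : (fun x => (t * f x + g x) ^ 2) =
          fun x => (f x ^ 2 * (t * t) + (f x * g x) * (2 * t)) + g x ^ 2 := by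
        funext x; ring
      rw [e, int_add3 (i1.mul_const _) (i3.mul_const _) i2, integral_mul_const, integral_mul_const]
      ring
    linarith
  have := discrim_le_zero key
  unfold discrim at this
  nlinarith

theorem cutLe_of_sq {D : α → α → ℝ} (hD : Kb D) {ε : ℝ} (hε : 0 ≤ ε)
    (h : ∫ z : α × α, D z.1 z.2 ^ 2 ∂(μ.prod μ) ≤ ε ^ 2) : CutLe μ D ε := by
  intro f g hf hg hf1 hg1
  have hb : ∀ z : α × α, |f z.1 * g z.2| ≤ 1 := fun z => by
    rw [abs_of_nonneg (mul_nonneg (hf1 _).1 (hg1 _).1)]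
    exact mul_le_one₀ (hf1 _).2 (hg1 _).1 (hg1 _).2
  have h1 := cs_sq (μ.prod μ) hD.meas ((hf.comp measurable_fst).mul (hg.comp measurable_snd))
    (fun z => hD.bdd _ _) hb
  have h2 : ∫ z : α × α, (f z.1 * g z.2) ^ 2 ∂(μ.prod μ) ≤ 1 := by
    have : ∫ z : α × α, (f z.1 * g z.2) ^ 2 ∂(μ.prod μ) ≤ ∫ _z : α × α, (1 : ℝ) ∂(μ.prod μ) := by
      refine integral_mono_of_nonneg (Eventually.of_forall fun z => sq_nonneg _)
        (integrable_const _) (Eventually.of_forall fun z => ?_)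
      have := hb z
      show (f z.1 * g z.2) ^ 2 ≤ 1
      rw [← sq_abs]
      exact pow_le_one₀ (abs_nonneg _) this
    simpa using this
  have h3 : 0 ≤ ∫ z : α × α, D z.1 z.2 ^ 2 ∂(μ.prod μ) := integral_nonneg fun z => sq_nonneg _
  refine abs_le_of_sq_le_sq ?_ hε
  calc _ ≤ _ := h1
    _ ≤ (∫ z : α × α, D z.1 z.2 ^ 2 ∂(μ.prod μ)) * 1 := mul_le_mul_of_nonneg_left h2 h3
    _ ≤ ε ^ 2 := by linarith

end Pool.Agent.H299Z.Gr
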