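import Pool.Agent.H299Z.Gr.Lim

set_option autoImplicit false
set_option linter.unusedSectionVars false
set_option synthInstance.maxSize 4096

open MeasureTheory Filter Topology ProbabilityTheory

namespace Pool.Agent.H299Z.Gr

/-- integral of a function of the kernel -/
noncomputable def JJ {α : Type*} [MeasurableSpace α] (μ : Measure α) (φ : ℝ → ℝ)
    (W : α → α → ℝ) : ℝ := ∫ z : α × α, φ (W z.1 z.2) ∂(μ.prod μ)

theorem intg_phi {β : Type*} [MeasurableSpace β] (ν : Measure β) [IsFiniteMeasure ν] {φ : ℝ → ℝ}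
    (hφ : Continuous φ) {f : β → ℝ} (hf : Measurable f) (h0 : ∀ x, 0 ≤ f x) (h1 : ∀ x, f x ≤ 1) :
    Integrable (fun x => φ (f x)) ν := by
  obtain ⟨C, hC⟩ := (isCompact_Icc (a := (0 : ℝ)) (b := 1)).exists_bound_of_continuousOn
    hφ.continuousOn
  exact intg (hφ.measurable.comp hf) C fun x => hC _ ⟨h0 x, h1 x⟩

theorem ce_symm {α : Type*} [MeasurableSpace α] (μ : Measure α) [IsProbabilityMeasure μ]
    {ι : Type*} [DecidableEq ι] (W : α → α → ℝ) (a : α → ι) (i j : ι) :
    ce μ (fun x y => W y x) a i j = ce μ W a j i := by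
  unfold ce
  rw [← integral_prod_swap]
  simp [mul_comm]

theorem exists_limit_measure {α κ : Type*} [MeasurableSpace α] (μ : Measure α)
    [IsProbabilityMeasure μ] (𝓤 : Ultrafilter κ) {W : κ → α → α → ℝ} (hW : ∀ n, K01 (W n))
    {π : κ → α → Om} (hπ : ∀ n, Measurable (π n)) :
    ∃ (m : Measure Om) (_ : IsProbabilityMeasure m) (U : Om → Om → ℝ), K01 U ∧
      (∀ k i, Tendsto (fun n => cm μ (fun x => lev k (π n x)) i) 𝓤 (𝓝 (cm m (lev k) i))) ∧
      (∀ k i j, Tendsto (fun n => ce μ (W n) (fun x => lev k (π n x)) i j) 𝓤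
        (𝓝 (ce m U (lev k) i j))) ∧
      ∀ φ : ℝ → ℝ, Continuous φ → ConvexOn ℝ (Set.Icc 0 1) φ → ∀ y : ℝ,
        Tendsto (fun n => JJ μ φ (W n)) 𝓤 (𝓝 y) → JJ m φ U ≤ y := by
  let F : κ → α × α → (Om × Om) × unitInterval := fun n z =>
    ((π n z.1, π n z.2), ⟨W n z.1 z.2, (hW n).nonneg _ _, (hW n).le_one _ _⟩)
  have hF : ∀ n, Measurable (F n) := fun n =>
    (((hπ n).comp measurable_fst).prodMk ((hπ n).comp measurable_snd)).prodMk
      (hW n).meas.subtype_mk
  let ρ : κ → ProbabilityMeasure ((Om × Om) × unitInterval) := fun n =>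
    ⟨(μ.prod μ).map (F n), Measure.isProbabilityMeasure_map (hF n).aemeasurable⟩
  let ms : κ → ProbabilityMeasure Om := fun n =>
    ⟨μ.map (π n), Measure.isProbabilityMeasure_map (hπ n).aemeasurable⟩
  obtain ⟨r, -, hr⟩ := isCompact_univ.ultrafilter_le_nhds (𝓤.map ρ) (by simp)
  obtain ⟨m, -, hm⟩ := isCompact_univ.ultrafilter_le_nhds (𝓤.map ms) (by simp)
  have hr' : Tendsto ρ 𝓤 (𝓝 r) := hr
  have hm' : Tendsto ms 𝓤 (𝓝 m) := hm
  have hfst : (r : Measure ((Om × Om) × unitInterval)).fst = (m : Measure Om).prod m := by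
    have h1 := ProbabilityMeasure.tendsto_map_of_tendsto_of_continuous ρ r hr'
      (f := Prod.fst) continuous_fst
    have h2 : Tendsto (fun n => (ms n).prod (ms n)) 𝓤 (𝓝 (m.prod m)) :=
      ((ProbabilityMeasure.continuous_prod (α := Om) (β := Om)).tendsto (m, m)).comp
        (hm'.prodMk_nhds hm')
    have h3 : ∀ n, (ρ n).map (continuous_fst.measurable.aemeasurable) = (ms n).prod (ms n) := by
      intro n
      apply Subtype.ext
      change ((μ.prod μ).map (F n)).map Prod.fst = (μ.map (π n)).prod (μ.map (π n))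
      rw [Measure.map_map measurable_fst (hF n), Measure.map_prod_map _ _ (hπ n) (hπ n)]
      rfl
    simp only [h3] at h1
    have := tendsto_nhds_unique h1 h2
    exact congrArg ProbabilityMeasure.toMeasure this
  set κr := (r : Measure ((Om × Om) × unitInterval)).condKernel with hκr
  have hval : Measurable fun w : unitInterval => (w : ℝ) := measurable_subtype_coe
  have hU : K01 fun x y : Om => ∫ w, (w : ℝ) ∂(κr (x, y)) := by
    refine ⟨(hval.stronglyMeasurable.integral_kernel (κ := κr)).measurable,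
      fun x y => integral_nonneg fun w => w.2.1, fun x y => ?_⟩
    have : ∫ w, (w : ℝ) ∂(κr (x, y)) ≤ ∫ _w, (1 : ℝ) ∂(κr (x, y)) :=
      integral_mono_of_nonneg (Eventually.of_forall fun w => w.2.1) (integrable_const _)
        (Eventually.of_forall fun w => w.2.2)
    simpa using this
  refine ⟨m, inferInstance, fun x y => ∫ w, (w : ℝ) ∂(κr (x, y)), hU, ?_, ?_, ?_⟩
  · intro k i
    have hc : Continuous fun ω : Om => ind i (lev k ω) :=
      (continuous_of_discreteTopology (f := ind i)).comp (lev_cont k)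
    have := tend_int hm' hc
    refine this.congr fun n => ?_
    change ∫ x, ind i (lev k x) ∂(μ.map (π n)) = _
    rw [integral_map (hπ n).aemeasurable hc.measurable.aestronglyMeasurable]
    rfl
  · intro k i j
    have hc : Continuous fun q : (Om × Om) × unitInterval =>
        (q.2 : ℝ) * (ind i (lev k q.1.1) * ind j (lev k q.1.2)) :=
      (continuous_subtype_val.comp continuous_snd).mul
        (((continuous_of_discreteTopology (f := ind i)).comp ((lev_cont k).comp
          continuous_fst.fst)).mul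
        ((continuous_of_discreteTopology (f := ind j)).comp ((lev_cont k).comp continuous_fst.snd)))
    have h1 := tend_int hr' hc
    have hi : Integrable (fun q : (Om × Om) × unitInterval =>
        (q.2 : ℝ) * (ind i (lev k q.1.1) * ind j (lev k q.1.2))) r :=
      (BoundedContinuousFunction.mkOfCompact ⟨_, hc⟩).integrable _
    have h2 := Measure.integral_condKernel hi
    rw [hfst] at h2
    have h3 : ce (m : Measure Om) (fun x y => ∫ w, (w : ℝ) ∂(κr (x, y))) (lev k) i j =
        ∫ q : (Om × Om) × unitInterval,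
          (q.2 : ℝ) * (ind i (lev k q.1.1) * ind j (lev k q.1.2)) ∂r := by
      rw [← h2]
      unfold ce
      exact integral_congr_ae (Eventually.of_forall fun z => by
        simp only [integral_mul_const]; rfl)
    rw [h3]
    refine h1.congr fun n => ?_
    change ∫ q : (Om × Om) × unitInterval, (q.2 : ℝ) * (ind i (lev k q.1.1) * ind j (lev k q.1.2))
      ∂((μ.prod μ).map (F n)) = _
    rw [integral_map (hF n).aemeasurable hc.measurable.aestronglyMeasurable]
    rfl
  · intro φ hφ hcv y hy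
    have hc : Continuous fun q : (Om × Om) × unitInterval => φ (q.2 : ℝ) :=
      hφ.comp (continuous_subtype_val.comp continuous_snd)
    have h1 := tend_int hr' hc
    have h1' : Tendsto (fun n => JJ μ φ (W n)) 𝓤
        (𝓝 (∫ q : (Om × Om) × unitInterval, φ (q.2 : ℝ) ∂r)) := by
      refine h1.congr fun n => ?_
      change ∫ q : (Om × Om) × unitInterval, φ (q.2 : ℝ) ∂((μ.prod μ).map (F n)) = _
      rw [integral_map (hF n).aemeasurable hc.measurable.aestronglyMeasurable]
      rfl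
    rw [tendsto_nhds_unique hy h1']
    have hi : Integrable (fun q : (Om × Om) × unitInterval => φ (q.2 : ℝ)) r :=
      (BoundedContinuousFunction.mkOfCompact ⟨_, hc⟩).integrable _
    have h2 := Measure.integral_condKernel hi
    have h4 := hi.integral_condKernel
    rw [hfst] at h2 h4
    rw [← h2]
    refine integral_mono (intg_phi _ hφ hU.meas (fun z => hU.nonneg _ _) fun z => hU.le_one _ _)
      h4 fun z => ?_
    exact hcv.map_integral_le hφ.continuousOn isClosed_Icc (Eventually.of_forall fun w => w.2)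
      (intg hval 1 fun w => by rw [abs_of_nonneg w.2.1]; exact w.2.2)
      (intg_phi _ hφ hval (fun w => w.2.1) fun w => w.2.2)

theorem compact_Om {α κ : Type*} [MeasurableSpace α] (μ : Measure α)
    [IsProbabilityMeasure μ] (𝓤 : Ultrafilter κ) {W : κ → α → α → ℝ} (hW : ∀ n, K01 (W n))
    (hs : ∀ n x y, W n x y = W n y x) :
    ∃ (m : Measure Om) (_ : IsProbabilityMeasure m) (U : Om → Om → ℝ), K01 U ∧
      (∀ x y, U x y = U y x) ∧
      (∀ c1 ∈ Set.Icc (0 : ℝ) 1, ∀ c2 ∈ Set.Icc (0 : ℝ) 1, ∀ c3 ∈ Set.Icc (0 : ℝ) 1,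
        Tendsto (fun n => TA μ c1 c2 c3 (W n)) 𝓤 (𝓝 (TA m c1 c2 c3 U))) ∧
      ∀ φ : ℝ → ℝ, Continuous φ → ConvexOn ℝ (Set.Icc 0 1) φ → ∀ y : ℝ,
        Tendsto (fun n => JJ μ φ (W n)) 𝓤 (𝓝 y) → JJ m φ U ≤ y := by
  choose π hπ hreg using fun n => weak_reg μ (hW n)
  obtain ⟨m, hm, V, hV, h1, h2, h3⟩ := exists_limit_measure μ 𝓤 hW hπ
  have hU : K01 fun x y => (V x y + V y x) / 2 :=
    ⟨(hV.meas.add hV.flip.meas).div_const _,
      fun x y => by linarith [hV.nonneg x y, hV.nonneg y x],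
      fun x y => by linarith [hV.le_one x y, hV.le_one y x]⟩
  have h2' : ∀ k i j, Tendsto (fun n => ce μ (W n) (fun x => lev k (π n x)) i j) 𝓤
      (𝓝 (ce m (fun x y => (V x y + V y x) / 2) (lev k) i j)) := by
    intro k i j
    have e1 : ce m (fun x y => (V x y + V y x) / 2) (lev k) i j =
        (ce m V (lev k) i j + ce m V (lev k) j i) / 2 := by
      rw [← ce_symm m V (lev k) i j]
      unfold ce
      rw [← integral_add (intg_ii m hV.kb (lev_meas k) i j)
        (intg_ii m hV.flip.kb (lev_meas k) i j), ← integral_div]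
      exact integral_congr_ae (Eventually.of_forall fun z => by ring)
    rw [e1]
    refine (((h2 k i j).add (h2 k j i)).div_const 2).congr fun n => ?_
    rw [← ce_symm μ (W n) _ i j]
    have : (fun x y => W n y x) = W n := by funext x y; exact hs n y x
    rw [this]
    ring
  refine ⟨m, hm, fun x y => (V x y + V y x) / 2, hU, fun x y => by ring, ?_, ?_⟩
  · intro c1 hc1 c2 hc2 c3 hc3
    refine Metric.tendsto_nhds.2 fun ε hε => ?_
    have t1 : Tendsto (fun K : ℕ => 2 / Real.sqrt (K + 1)) atTop (𝓝 0) :=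
      tendsto_const_nhds.div_atTop (Real.tendsto_sqrt_atTop.comp
        (tendsto_atTop_add_const_right _ _ tendsto_natCast_atTop_atTop))
    have hε9 : 0 < ε / 10 := by positivity
    obtain ⟨K1, hK1⟩ := eventually_atTop.1 (t1.eventually (gt_mem_nhds hε9))
    obtain ⟨K2, hK2⟩ := eventually_atTop.1
      ((res_tendsto m hU).eventually (gt_mem_nhds (pow_pos hε9 2)))
    set K := max K1 K2 with hK
    have hex : ∀ᶠ n in (𝓤 : Filter κ), ∃ j ∈ Set.Icc K (2 * K),
        CutLe μ (fun x y => W n x y - step μ (W n) (fun x => lev j (π n x)) x y)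
          (2 / Real.sqrt (K + 1)) :=
      Eventually.of_forall fun n => by
        obtain ⟨j, a, b, c⟩ := hreg n K
        exact ⟨j, ⟨a, b⟩, c⟩
    obtain ⟨j, hj, hev⟩ := (Ultrafilter.eventually_exists_mem_iff (Set.finite_Icc _ _)).1 hex
    have t2 := TA_step_tendsto μ m hW (fun n => (lev_meas j).comp (hπ n)) hU (lev_meas j)
      (h1 j) (h2' j) hc1 hc2 hc3
    filter_upwards [hev, Metric.tendsto_nhds.1 t2 _ hε9] with n hn1 hn2
    have a1 := TA_count μ (hW n) (step_k01 μ (hW n) ((lev_meas j).comp (hπ n))) hn1 hc1 hc2 hc3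
    have a2 := hK1 K (le_max_left _ _)
    have a3 := hK2 j ((le_max_right _ _).trans hj.1)
    have a4 := TA_count m hU (step_k01 m hU (lev_meas j))
      (cutLe_of_sq m (hU.sub_kb (step_k01 m hU (lev_meas j))) hε9.le a3.le) hc1 hc2 hc3
    rw [Real.dist_eq] at hn2 ⊢
    have b1 := abs_le.1 a1
    have b2 := abs_lt.1 hn2
    have b3 := abs_le.1 a4
    refine abs_lt.2 ⟨?_, ?_⟩ <;> linarith [b1.1, b1.2, b2.1, b2.2, b3.1, b3.2]
  · intro φ hφ hcv y hy
    refine le_trans ?_ (h3 φ hφ hcv y hy)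
    have i1 := intg_phi (m.prod m) hφ hV.meas (fun z => hV.nonneg _ _) fun z => hV.le_one _ _
    have i2 := intg_phi (m.prod m) hφ hV.flip.meas (fun z => hV.nonneg _ _) fun z => hV.le_one _ _
    have e : JJ m φ V = ∫ z : Om × Om, (φ (V z.1 z.2) + φ (V z.2 z.1)) / 2 ∂(m.prod m) := by
      rw [integral_div, integral_add i1 i2,
        ← integral_prod_swap (fun z : Om × Om => φ (V z.2 z.1))]
      simp [JJ]
    rw [e]
    refine integral_mono (intg_phi _ hφ hU.meas (fun z => hU.nonneg _ _) fun z => hU.le_one _ _)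
      ((i1.add i2).div_const _) fun z => ?_
    have := hcv.2 (show V z.1 z.2 ∈ Set.Icc (0 : ℝ) 1 from ⟨hV.nonneg z.1 z.2, hV.le_one z.1 z.2⟩)
      (show V z.2 z.1 ∈ Set.Icc (0 : ℝ) 1 from ⟨hV.nonneg z.2 z.1, hV.le_one z.2 z.1⟩)
      (show (0 : ℝ) ≤ 1 / 2 by norm_num) (show (0 : ℝ) ≤ 1 / 2 by norm_num) (by norm_num)
    simp only [smul_eq_mul] at this
    have e2 : (V z.1 z.2 + V z.2 z.1) / 2 = 1 / 2 * V z.1 z.2 + 1 / 2 * V z.2 z.1 := by ring
    show φ ((V z.1 z.2 + V z.2 z.1) / 2) ≤ (φ (V z.1 z.2) + φ (V z.2 z.1)) / 2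
    rw [e2]
    linarith

/-- Lebesgue measure on the unit interval, as a measure on the line -/
noncomputable abbrev mu0 : Measure ℝ := volume.restrict (Set.Icc (0 : ℝ) 1)

instance : IsProbabilityMeasure mu0 := ⟨by simp⟩

theorem exists_mp (m : Measure Om) [IsProbabilityMeasure m] :
    ∃ ψ : ℝ → Om, MeasurePreserving ψ mu0 m := by
  obtain ⟨f, hf, hm⟩ := m.exists_measurable_map_eq
  have h1 : MeasurePreserving (Set.projIcc (0 : ℝ) 1 zero_le_one) mu0
      (volume : Measure unitInterval) := by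
    have hc : Measurable (Set.projIcc (0 : ℝ) 1 zero_le_one) := continuous_projIcc.measurable
    refine ⟨hc, ?_⟩
    have e0 : mu0 = (volume : Measure unitInterval).map (fun w : unitInterval => (w : ℝ)) :=
      (unitInterval.measurePreserving_coe).map_eq.symm
    rw [e0, Measure.map_map hc measurable_subtype_coe]
    have : (Set.projIcc (0 : ℝ) 1 zero_le_one ∘ fun w : unitInterval => (w : ℝ)) = id := by
      funext w; simp
    rw [this, Measure.map_id]
  exact ⟨_, (MeasurePreserving.mk hf hm).comp h1⟩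

/-- compactness of the space of graphons, for the triangle forms and convex integrals -/
theorem compact_graphon {κ : Type*} (𝓤 : Ultrafilter κ) {W : κ → ℝ → ℝ → ℝ}
    (hW : ∀ n, K01 (W n)) (hs : ∀ n x y, W n x y = W n y x) :
    ∃ U : ℝ → ℝ → ℝ, K01 U ∧ (∀ x y, U x y = U y x) ∧
      (∀ c1 ∈ Set.Icc (0 : ℝ) 1, ∀ c2 ∈ Set.Icc (0 : ℝ) 1, ∀ c3 ∈ Set.Icc (0 : ℝ) 1,
        Tendsto (fun n => TA mu0 c1 c2 c3 (W n)) 𝓤 (𝓝 (TA mu0 c1 c2 c3 U))) ∧
      ∀ φ : ℝ → ℝ, Continuous φ → ConvexOn ℝ (Set.Icc 0 1) φ → ∀ y : ℝ,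
        Tendsto (fun n => JJ mu0 φ (W n)) 𝓤 (𝓝 y) → JJ mu0 φ U ≤ y := by
  obtain ⟨m, hm, U, hU, hsU, h1, h2⟩ := compact_Om mu0 𝓤 hW hs
  obtain ⟨ψ, hψ⟩ := exists_mp m
  refine ⟨fun x y => U (ψ x) (ψ y), ⟨hU.kb.comp (hψ.measurable.comp measurable_fst)
    (hψ.measurable.comp measurable_snd), fun _ _ => hU.nonneg _ _, fun _ _ => hU.le_one _ _⟩,
    fun _ _ => hsU _ _, ?_, ?_⟩
  · intro c1 hc1 c2 hc2 c3 hc3
    have : TA mu0 c1 c2 c3 (fun x y => U (ψ x) (ψ y)) = TA m c1 c2 c3 U :=
      integral_mp (hψ.prod (hψ.prod hψ)) (tri_meas (hU.af hc1).kb (hU.af hc2).kb (hU.af hc3).kb)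
    rw [this]
    exact h1 c1 hc1 c2 hc2 c3 hc3
  · intro φ hφ hcv y hy
    have : JJ mu0 φ (fun x y => U (ψ x) (ψ y)) = JJ m φ U :=
      integral_mp (hψ.prod hψ) (hφ.measurable.comp hU.meas)
    rw [this]
    exact h2 φ hφ hcv y hy

end Pool.Agent.H299Z.Gr
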