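import Pool.Agent.H299Z.Gr.Two

set_option autoImplicit false
set_option linter.unusedSectionVars false

open MeasureTheory Filter Topology

namespace Pool.Agent.H299Z.Gr

theorem mp_vec3 : MeasurePreserving (fun q : ℝ × ℝ × ℝ => (![q.1, q.2.1, q.2.2] : Fin 3 → ℝ))
    (mu0.prod (mu0.prod mu0)) (Measure.pi fun _ : Fin 3 => mu0) := by
  have hm : Measurable fun q : ℝ × ℝ × ℝ => (![q.1, q.2.1, q.2.2] : Fin 3 → ℝ) := by
    refine measurable_pi_lambda _ fun i => ?_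
    fin_cases i
    · exact measurable_fst
    · exact measurable_snd.fst
    · exact measurable_snd.snd
  refine ⟨hm, (Measure.pi_eq fun s hs => ?_).symm⟩
  rw [Measure.map_apply hm (MeasurableSet.univ_pi hs)]
  have : (fun q : ℝ × ℝ × ℝ => (![q.1, q.2.1, q.2.2] : Fin 3 → ℝ)) ⁻¹' Set.univ.pi s =
      s 0 ×ˢ (s 1 ×ˢ s 2) := by
    ext q
    simp [Fin.forall_fin_succ]
  rw [this, Measure.prod_prod, Measure.prod_prod, Fin.prod_univ_three, mul_assoc]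

theorem int_cube {F : (Fin 3 → ℝ) → ℝ} (hF : Measurable F) :
    ∫ x in Set.univ.pi (fun _ : Fin 3 => Set.Icc (0 : ℝ) 1), F x =
      ∫ q : ℝ × ℝ × ℝ, F ![q.1, q.2.1, q.2.2] ∂(mu0.prod (mu0.prod mu0)) := by
  rw [integral_mp mp_vec3 hF, volume_pi, Measure.restrict_pi_pi]

theorem hom_cherry {W : ℝ → ℝ → ℝ} (hW : K01 W) :
    ∫ x in Set.univ.pi (fun _ : Fin 3 => Set.Icc (0 : ℝ) 1),
      ∏ e ∈ ({(0, 1), (0, 2)} : Finset (Fin 3 × Fin 3)), W (x e.1) (x e.2) =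
      Tri mu0 W (fun _ _ => 1) W := by
  have e : ∀ x : Fin 3 → ℝ, ∏ e ∈ ({(0, 1), (0, 2)} : Finset (Fin 3 × Fin 3)), W (x e.1) (x e.2) =
      W (x 0) (x 1) * W (x 0) (x 2) := fun x => Finset.prod_pair (by decide)
  simp only [e]
  rw [int_cube (F := fun x => W (x 0) (x 1) * W (x 0) (x 2)) ((hW.kb.comp (measurable_pi_apply 0) (measurable_pi_apply 1)).mul
    (hW.kb.comp (measurable_pi_apply 0) (measurable_pi_apply 2)))]
  simp [Tri]

theorem hom_edge {W : ℝ → ℝ → ℝ} (hW : K01 W) :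
    ∫ x in Set.univ.pi (fun _ : Fin 3 => Set.Icc (0 : ℝ) 1),
      ∏ e ∈ ({(0, 1)} : Finset (Fin 3 × Fin 3)), W (x e.1) (x e.2) =
      Tri mu0 W (fun _ _ => 1) (fun _ _ => 1) := by
  simp only [Finset.prod_singleton]
  rw [int_cube (hW.kb.comp (measurable_pi_apply 0) (measurable_pi_apply 1))]
  simp [Tri]

theorem T_eq {W : ℝ → ℝ → ℝ} (hW : K01 W) :
    ∫ x in Set.Icc (0 : ℝ) 1, ∫ y in Set.Icc (0 : ℝ) 1, ∫ z in Set.Icc (0 : ℝ) 1,
      W x y * W y z * W x z = Tri mu0 W W W := by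
  unfold Tri
  rw [integral_prod _ (tri_intg mu0 hW.kb hW.kb hW.kb)]
  refine integral_congr_ae (Eventually.of_forall fun x => ?_)
  refine (integral_prod (fun w : ℝ × ℝ => W x w.1 * W w.1 w.2 * W x w.2) ?_).symm
  exact intg ((((hW.row x).comp measurable_fst).mul hW.meas).mul ((hW.row x).comp measurable_snd)) 1
    fun w => tri_bdd hW.kb hW.kb hW.kb _ _ _

theorem I_eq {p : ℝ} (p0 : 0 < p) (p1 : p < 1) {W : ℝ → ℝ → ℝ} (hW : K01 W) :
    ∫ x in Set.Icc (0 : ℝ) 1, ∫ y in Set.Icc (0 : ℝ) 1,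
      (W x y * Real.log (W x y / p) + (1 - W x y) * Real.log ((1 - W x y) / (1 - p))) =
      JJ mu0 (phi p) W := by
  simp only [phi_eq p0 p1]
  exact (integral_prod (fun z : ℝ × ℝ => phi p (W z.1 z.2)) (intg_phi _ (phi_cont p) hW.meas
    (fun z => hW.nonneg _ _) fun z => hW.le_one _ _)).symm

theorem global_min {p t : ℝ} (p0 : 0 < p) (p1 : p < 1) {V : ℝ → ℝ → ℝ} (hV : IsMin p t V)
    {Z : ℝ → ℝ → ℝ} (hZ : G Z) (hT : t ≤ Tri mu0 Z Z Z) :
    JJ mu0 (phi p) (fun x y => af p (V x y)) ≤ JJ mu0 (phi p) Z := by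
  have hp : p ∈ Set.Icc (0 : ℝ) 1 := ⟨p0.le, p1.le⟩
  have hq : 0 < 1 - p := by linarith
  have kV : K01 fun x y => (max (Z x y) p - p) / (1 - p) :=
    ⟨((hZ.1.meas.max measurable_const).sub_const _).div_const _,
      fun x y => div_nonneg (by linarith [le_max_right (Z x y) p]) hq.le,
      fun x y => (div_le_one hq).2 (by linarith [max_le (hZ.1.le_one x y) p1.le])⟩
  have ea : ∀ x y, af p ((max (Z x y) p - p) / (1 - p)) = max (Z x y) p := fun x y => by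
    unfold af; rw [mul_div_cancel₀ _ hq.ne']; ring
  have kM := kV.af hp
  simp only [ea] at kM
  have h1 : t ≤ TA mu0 p p p fun x y => (max (Z x y) p - p) / (1 - p) := by
    unfold TA
    simp only [ea]
    refine hT.trans (integral_mono (tri_intg mu0 hZ.1.kb hZ.1.kb hZ.1.kb)
      (tri_intg mu0 kM.kb kM.kb kM.kb) fun q => ?_)
    have := hZ.1.nonneg
    exact mul_le_mul (mul_le_mul (le_max_left _ _) (le_max_left _ _) (this _ _) (kM.nonneg _ _))
      (le_max_left _ _) (this _ _) (mul_nonneg (kM.nonneg _ _) (kM.nonneg _ _))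
  have h2 := hV.2.2 _ ⟨kV, fun x y => by rw [hZ.2 x y]⟩ h1
  refine le_trans h2 ?_
  refine integral_mono (intg_phi _ (psi_cont p) kV.meas (fun z => kV.nonneg _ _)
    fun z => kV.le_one _ _) (intg_phi _ (phi_cont p) hZ.1.meas (fun z => hZ.1.nonneg _ _)
    fun z => hZ.1.le_one _ _) fun z => ?_
  show phi p (af p _) ≤ phi p (Z z.1 z.2)
  rw [ea]
  rcases le_total (Z z.1 z.2) p with h | h
  · rw [max_eq_right h, phi_self]
    exact phi_nonneg p0 p1 (hZ.1.nonneg _ _) (hZ.1.le_one _ _)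
  · rw [max_eq_left h]

theorem Par.breaking {p q L : ℝ} (P : Par p q L) {t : ℝ} (h0 : 3 / 2 * p ^ 3 ≤ t)
    (h1 : t ≤ 9 * p ^ 3) {V : ℝ → ℝ → ℝ} (hV : IsMin p t V) :
    JJ mu0 (psi p) V < phi p (t ^ ((1 : ℝ) / 3)) ∧ 0 ≤ t ^ ((1 : ℝ) / 3) ∧
      t ^ ((1 : ℝ) / 3) ≤ 1 ∧ t < 1 := by
  have p0 := P.p0
  have ps := P.p_small
  have hL := P.hL
  have p3 : 0 < p ^ 3 := by positivity
  have t0 : 0 ≤ t := by linarith
  have t1 : t < 1 := by
    have : p ^ 3 ≤ (1 / 10 ^ 26) ^ 3 := pow_le_pow_left₀ p0.le ps 3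
    have : (1 / 10 ^ 26 : ℝ) ^ 3 ≤ 1 / 100 := by norm_num
    linarith
  set r := t ^ ((1 : ℝ) / 3) with hr
  have r0 : 0 ≤ r := Real.rpow_nonneg t0 _
  have r1 : r ≤ 1 := Real.rpow_le_one t0 t1.le (by norm_num)
  have r3 : r ^ 3 = t := by
    rw [hr, ← Real.rpow_natCast, ← Real.rpow_mul t0]; norm_num
  have r4 : 11 / 10 * p ≤ r := by
    refine le_of_pow_le_pow_left₀ (n := 3) (by norm_num) r0 ?_
    rw [r3]; nlinarith
  refine ⟨?_, r0, r1, t1⟩
  have a1 := (P.min_facts (by linarith) h1 hV).1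
  have a2 := P.lowC (j := phi p r) (d := r - p) (fun l _ => gibbs p0 P.p1 r0 r1 l)
    (l := 1 / 100) (by norm_num) (by norm_num)
  have a3 : p * JJ mu0 (psi p) V < p * phi p r := by
    have b1 : 7 / 10 ^ 4 * p ≤ phi p r := by nlinarith
    have b2 := mul_le_mul_of_nonneg_left b1 p0.le
    have b3 : p ^ 3 ≤ p ^ 2 * (1 / 10 ^ 26) := by nlinarith
    have b4 : 0 < p ^ 2 := by positivity
    rw [hL] at a1
    nlinarith
  exact lt_of_mul_lt_mul_left a3 p0.le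

end Pool.Agent.H299Z.Gr
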