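import Mathlib

set_option autoImplicit false

open Real

namespace Pool.Agent.H299Z.Gr

/-- the relative entropy of two coins -/
noncomputable def phi (p u : ℝ) : ℝ :=
  u * log u - u * log p + ((1 - u) * log (1 - u) - (1 - u) * log (1 - p))

theorem phi_eq {p : ℝ} (hp : 0 < p) (hp1 : p < 1) (u : ℝ) :
    u * log (u / p) + (1 - u) * log ((1 - u) / (1 - p)) = phi p u := by
  unfold phi
  have h1 : u * log (u / p) = u * log u - u * log p := by
    by_cases h : u = 0
    · simp [h]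
    · rw [log_div h hp.ne']; ring
  have h2 : (1 - u) * log ((1 - u) / (1 - p)) = (1 - u) * log (1 - u) - (1 - u) * log (1 - p) := by
    by_cases h : 1 - u = 0
    · simp [h]
    · rw [log_div h (by linarith)]; ring
  rw [h1, h2]

theorem phi_cont (p : ℝ) : Continuous (phi p) := by
  unfold phi
  have h := continuous_mul_log
  exact (h.sub (continuous_id.mul continuous_const)).add
    ((h.comp (continuous_const.sub continuous_id)).sub
      ((continuous_const.sub continuous_id).mul continuous_const))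

theorem phi_convex (p : ℝ) : ConvexOn ℝ (Set.Icc 0 1) (phi p) := by
  refine ⟨convex_Icc 0 1, fun x hx y hy a b ha hb hab => ?_⟩
  have h1 := convexOn_mul_log.2 (show x ∈ Set.Ici (0 : ℝ) from hx.1)
    (show y ∈ Set.Ici (0 : ℝ) from hy.1) ha hb hab
  have h2 := convexOn_mul_log.2 (show 1 - x ∈ Set.Ici (0 : ℝ) from sub_nonneg.2 hx.2)
    (show 1 - y ∈ Set.Ici (0 : ℝ) from sub_nonneg.2 hy.2) ha hb hab
  simp only [smul_eq_mul] at h1 h2 ⊢
  have e : a * (1 - x) + b * (1 - y) = 1 - (a * x + b * y) := by linear_combination hab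
  rw [e] at h2
  unfold phi
  have e2 : (1 - (a * x + b * y)) * log (1 - p) =
      a * ((1 - x) * log (1 - p)) + b * ((1 - y) * log (1 - p)) := by
    rw [← e]; ring
  rw [e2]
  nlinarith

theorem mul_log_ge {a c : ℝ} (ha : 0 ≤ a) (hc : 0 < c) : a - c ≤ a * log a - a * log c := by
  rcases ha.eq_or_lt with h | h
  · subst h; simp; linarith
  · have h1 := log_le_sub_one_of_pos (div_pos hc h)
    rw [log_div hc.ne' h.ne'] at h1
    have h2 := mul_le_mul_of_nonneg_left h1 ha
    have : a * (c / a - 1) = c - a := by field_simp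
    rw [this] at h2
    linarith

theorem gibbs {p u : ℝ} (hp : 0 < p) (hp1 : p < 1) (h0 : 0 ≤ u) (h1 : u ≤ 1) (l : ℝ) :
    l * (u - p) - p * (exp l - 1 - l) ≤ phi p u := by
  have a1 := mul_log_ge h0 (mul_pos hp (exp_pos l))
  have a2 := mul_log_ge (sub_nonneg.2 h1) (sub_pos.2 hp1)
  rw [log_mul hp.ne' (exp_pos l).ne', log_exp] at a1
  unfold phi
  nlinarith

theorem phi_nonneg {p u : ℝ} (hp : 0 < p) (hp1 : p < 1) (h0 : 0 ≤ u) (h1 : u ≤ 1) :
    0 ≤ phi p u := by
  simpa using gibbs hp hp1 h0 h1 0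

theorem phi_self (p : ℝ) : phi p p = 0 := by unfold phi; ring

theorem phi_one (p : ℝ) : phi p 1 = -log p := by simp [phi]

theorem exp_sub_le {y : ℝ} (hy : 0 ≤ y) : exp y - 1 - y ≤ y ^ 2 * exp y := by
  have h1 : 1 - y ≤ exp (-y) := by linarith [add_one_le_exp (-y)]
  have h2 : exp y * exp (-y) = 1 := by rw [← exp_add]; simp
  have h3 : exp y - 1 ≤ y * exp y := by nlinarith [exp_pos y]
  nlinarith [add_one_le_exp y]

/-- the numerical data -/
structure Par (p q L : ℝ) : Prop where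
  hL : L = 10 ^ 4
  q0 : 0 < q
  q1 : q ≤ 1 / 10 ^ 13
  hp : p = q ^ 2
  hq : q * exp (L / 2) = 1
  hlog : log p = -L

theorem exists_par : ∃ p q L, Par p q L := by
  refine ⟨exp (-(10 ^ 4 / 2)) ^ 2, exp (-(10 ^ 4 / 2)), 10 ^ 4, rfl, exp_pos _, ?_, rfl, ?_, ?_⟩
  · rw [exp_neg, one_div]
    refine inv_anti₀ (by norm_num) ?_
    have := Real.pow_div_factorial_le_exp (10 ^ 4 / 2) (by norm_num) 4
    refine le_trans ?_ this
    norm_num [Nat.factorial]
  · rw [← exp_add]; simp
  · rw [log_pow, log_exp]; norm_num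

namespace Par

variable {p q L : ℝ} (P : Par p q L)
include P

theorem p0 : 0 < p := by rw [P.hp]; exact pow_pos P.q0 2

theorem p_small : p ≤ 1 / 10 ^ 26 := by
  rw [P.hp]
  have := pow_le_pow_left₀ P.q0.le P.q1 2
  refine this.trans (by norm_num)

theorem p1 : p < 1 := P.p_small.trans_lt (by norm_num)

theorem lowA {j d b : ℝ} (hj : ∀ l, 0 ≤ l → l * d - p * (exp l - 1 - l) ≤ j) (hd : 0 ≤ d)
    (hdb : d ≤ b) (hb : 1 / 10 ^ 4 ≤ b) : L * d ^ 2 ≤ 4 * b * j := by
  have hL := P.hL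
  have hb0 : 0 < b := lt_of_lt_of_le (by norm_num) hb
  have hL0 : 0 < L := by rw [hL]; norm_num
  set l := L * d / (2 * b) with hl
  have l0 : 0 ≤ l := by positivity
  have l1 : l ≤ L / 2 := by
    rw [hl, div_le_div_iff₀ (by positivity) (by norm_num)]
    nlinarith
  have h1 := hj l l0
  have h2 := exp_sub_le l0
  have h3 : exp l ≤ exp (L / 2) := exp_le_exp.2 l1
  have h4 : p * (exp l - 1 - l) ≤ q * l ^ 2 := by
    calc p * (exp l - 1 - l) ≤ p * (l ^ 2 * exp (L / 2)) := by
          refine mul_le_mul_of_nonneg_left (h2.trans ?_) P.p0.le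
          gcongr
      _ = q * l ^ 2 * (q * exp (L / 2)) := by rw [P.hp]; ring
      _ = q * l ^ 2 := by rw [P.hq, mul_one]
  have h5 : q * L ≤ b := by
    have := P.q1
    rw [hL]; linarith
  have h6 : 2 * b * l = L * d := by rw [hl]; field_simp
  have h7 : q * l ≤ d / 2 := by
    have : q * l * (2 * b) ≤ d / 2 * (2 * b) := by
      calc q * l * (2 * b) = q * (2 * b * l) := by ring
        _ = q * L * d := by rw [h6]; ring
        _ ≤ b * d := by gcongr
        _ = d / 2 * (2 * b) := by ring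
    exact le_of_mul_le_mul_right this (by positivity)
  have h8 : l * d / 2 ≤ j := by nlinarith
  calc L * d ^ 2 = (L * d) * d := by ring
    _ = 4 * b * (l * d / 2) := by rw [← h6]; ring
    _ ≤ 4 * b * j := by gcongr

theorem lowB {j d b : ℝ} (hj : ∀ l, 0 ≤ l → l * d - p * (exp l - 1 - l) ≤ j)
    (hdb : b ≤ d) (hb : 1 / 10 ^ 4 ≤ b) : L * b / 4 ≤ j := by
  have hL := P.hL
  have h1 := hj (L / 2) (by rw [hL]; norm_num)
  have h2 : p * exp (L / 2) = q := by
    rw [P.hp]; linear_combination q * P.hq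
  have h3 := P.q1
  have h4 := P.p0
  rw [hL] at *
  nlinarith

theorem lowC {j d : ℝ} (hj : ∀ l, 0 ≤ l → l * d - p * (exp l - 1 - l) ≤ j) {l : ℝ} (l0 : 0 ≤ l)
    (l1 : l ≤ 1) : l * d - 3 * p * l ^ 2 ≤ j := by
  have h1 := hj l l0
  have h2 := exp_sub_le l0
  have h3 : exp l ≤ 3 := (exp_le_exp.2 l1).trans (by linarith [exp_one_lt_d9])
  have h4 : exp l - 1 - l ≤ l ^ 2 * 3 := h2.trans (by gcongr)
  nlinarith [P.p0]

theorem lowD {j d : ℝ} (hj : ∀ l, 0 ≤ l → l * d - p * (exp l - 1 - l) ≤ j) (hd : 0 ≤ d)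
    (hd1 : d ≤ 1) : 98 / 100 * L * d ^ 2 ≤ j := by
  have hL := P.hL
  rcases le_total d (1 / 4) with h | h
  · have := P.lowA hj hd h (by norm_num)
    rw [hL] at *
    nlinarith
  · have h1 := hj (99 / 100 * L) (by rw [hL]; norm_num)
    have h2 : p * exp (99 / 100 * L) ≤ 1 := by
      have : exp (99 / 100 * L) ≤ exp (L / 2) * exp (L / 2) := by
        rw [← exp_add]; exact exp_le_exp.2 (by rw [hL]; norm_num)
      calc p * exp (99 / 100 * L) ≤ p * (exp (L / 2) * exp (L / 2)) :=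
            mul_le_mul_of_nonneg_left this P.p0.le
        _ = (q * exp (L / 2)) ^ 2 := by rw [P.hp]; ring
        _ = 1 := by rw [P.hq]; norm_num
    have h4 := P.p0
    rw [hL] at *
    nlinarith

end Par

end Pool.Agent.H299Z.Gr
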