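import Pool.Agent.H299Z.Gr.Compact
import Pool.Agent.H299Z.Gr.Phi

set_option autoImplicit false
set_option linter.unusedSectionVars false

open MeasureTheory Filter Topology

namespace Pool.Agent.H299Z.Gr

variable {α : Type*} [MeasurableSpace α] (μ : Measure α) [IsProbabilityMeasure μ]

theorem meas_row {F : α → α → ℝ} (hF : Measurable fun z : α × α => F z.1 z.2) :
    Measurable fun x => ∫ y, F x y ∂μ :=
  (StronglyMeasurable.integral_prod_right' (ν := μ) hF.stronglyMeasurable).measurable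

theorem K01.row {U : α → α → ℝ} (hU : K01 U) (x : α) : Measurable (U x) :=
  hU.kb.comp measurable_const measurable_id

theorem K01.row_intg {U : α → α → ℝ} (hU : K01 U) (x : α) : Integrable (U x) μ :=
  intg (hU.row x) 1 fun y => hU.kb.bdd x y

theorem K01.deg_mem {U : α → α → ℝ} (hU : K01 U) (x : α) :
    0 ≤ ∫ y, U x y ∂μ ∧ ∫ y, U x y ∂μ ≤ 1 := by
  refine ⟨integral_nonneg fun y => hU.nonneg x y, ?_⟩
  have : ∫ y, U x y ∂μ ≤ ∫ _y, (1 : ℝ) ∂μ :=
    integral_mono (hU.row_intg μ x) (integrable_const _) fun y => hU.le_one x y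
  simpa using this

theorem K01.mul {U V : α → α → ℝ} (hU : K01 U) (hV : K01 V) : K01 fun x y => U x y * V x y :=
  ⟨hU.meas.mul hV.meas, fun x y => mul_nonneg (hU.nonneg x y) (hV.nonneg x y),
    fun x y => mul_le_one₀ (hU.le_one x y) (hV.nonneg x y) (hV.le_one x y)⟩

theorem K01.sq {U : α → α → ℝ} (hU : K01 U) : K01 fun x y => U x y ^ 2 := by
  simpa [pow_two] using hU.mul hU

theorem k01_fst {c : α → ℝ} (hc : Measurable c) (h : ∀ x, 0 ≤ c x ∧ c x ≤ 1) :
    K01 fun x (_ : α) => c x :=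
  ⟨hc.comp measurable_fst, fun x _ => (h x).1, fun x _ => (h x).2⟩

theorem tri_cherry {U : α → α → ℝ} (hU : K01 U) :
    Tri μ U (fun _ _ => 1) U = ∫ x, (∫ y, U x y ∂μ) ^ 2 ∂μ := by
  unfold Tri
  rw [integral_prod _ (tri_intg μ hU.kb k01_one.kb hU.kb)]
  refine integral_congr_ae (Eventually.of_forall fun x => ?_)
  simp only [mul_one]
  rw [integral_prod_mul (U x) (U x), pow_two]

theorem tri_c (U : α → α → ℝ) (c : α → ℝ) :
    Tri μ (fun x _ => c x) U (fun _ _ => 1) =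
      (∫ x, c x ∂μ) * ∫ z : α × α, U z.1 z.2 ∂(μ.prod μ) := by
  unfold Tri
  simp only [mul_one]
  exact integral_prod_mul c (fun z : α × α => U z.1 z.2)

theorem tri_le_sqrt {V : α → α → ℝ} (hV : K01 V) :
    Tri μ V V V ≤ Real.sqrt (∫ z : α × α, V z.1 z.2 ^ 2 ∂(μ.prod μ)) *
      ∫ z : α × α, V z.1 z.2 ^ 2 ∂(μ.prod μ) := by
  set N := ∫ z : α × α, V z.1 z.2 ^ 2 ∂(μ.prod μ) with hN
  have hN0 : 0 ≤ N := integral_nonneg fun z => sq_nonneg _
  have i1 := tri_intg μ hV.kb hV.kb hV.kb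
  have i2 := hV.sq.kb.intg μ
  have e : Real.sqrt N * N = ∫ x, Real.sqrt N * ∫ y, V x y ^ 2 ∂μ ∂μ := by
    rw [integral_const_mul, ← integral_prod _ i2]
  unfold Tri
  rw [integral_prod _ i1, e]
  refine integral_mono i1.integral_prod_left (i2.integral_prod_left.const_mul _) fun x => ?_
  have hb : ∀ w : α × α, |V x w.1 * V x w.2| ≤ 1 := fun w => by
    rw [abs_mul]; exact mul_le_one₀ (hV.kb.bdd _ _) (abs_nonneg _) (hV.kb.bdd _ _)
  have h1 := cs_sq (μ.prod μ) hV.meas (((hV.row x).comp measurable_fst).mul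
    ((hV.row x).comp measurable_snd)) (fun w => hV.kb.bdd _ _) hb
  have h2 : ∫ w : α × α, (V x w.1 * V x w.2) ^ 2 ∂(μ.prod μ) = (∫ y, V x y ^ 2 ∂μ) ^ 2 := by
    simp only [mul_pow]
    rw [integral_prod_mul (fun y => V x y ^ 2) (fun y => V x y ^ 2), pow_two (∫ y, V x y ^ 2 ∂μ)]
  have h3 : (∫ w : α × α, V w.1 w.2 * (V x w.1 * V x w.2) ∂(μ.prod μ)) ^ 2 ≤
      (Real.sqrt N * ∫ y, V x y ^ 2 ∂μ) ^ 2 := by
    rw [mul_pow, Real.sq_sqrt hN0, ← h2]
    exact h1
  have h4 := abs_le_of_sq_le_sq h3 (mul_nonneg (Real.sqrt_nonneg _) (hV.sq.deg_mem μ x).1)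
  refine le_trans (le_of_eq ?_) ((le_abs_self _).trans h4)
  exact integral_congr_ae (Eventually.of_forall fun w => by ring)

theorem tri_split {U : α → α → ℝ} (hU : K01 U) {c : α → ℝ} (hc : Measurable c)
    (h : ∀ x, c x = 0 ∨ c x = 1) :
    Tri μ U U U ≤ 3 * ((∫ x, c x ∂μ) * ∫ z : α × α, U z.1 z.2 ∂(μ.prod μ)) +
      Tri μ (fun x y => U x y * ((1 - c x) * (1 - c y))) (fun x y => U x y * ((1 - c x) * (1 - c y)))
        (fun x y => U x y * ((1 - c x) * (1 - c y))) := by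
  have h' : ∀ x, 0 ≤ c x ∧ c x ≤ 1 := fun x => by rcases h x with e | e <;> simp [e]
  have h'' : ∀ x, 0 ≤ 1 - c x ∧ 1 - c x ≤ 1 := fun x => ⟨by linarith [(h' x).2], by linarith [(h' x).1]⟩
  have kc := k01_fst hc h'
  have kc' := k01_fst (c := fun x => 1 - c x) (measurable_const.sub hc) h''
  have kV : K01 fun x y => U x y * ((1 - c x) * (1 - c y)) := hU.mul (kc'.mul kc'.flip)
  have e1 := tri_c μ U c
  have e2 : Tri μ (fun _ y => c y) (fun _ _ => 1) U = Tri μ (fun x _ => c x) U (fun _ _ => 1) :=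
    tri_swap12 μ kc.flip.kb k01_one.kb hU.kb
  have e3 : Tri μ U (fun _ _ => 1) (fun _ y => c y) = Tri μ (fun _ y => c y) (fun _ _ => 1) U :=
    tri_swap23 μ hU.kb k01_one.kb kc.flip.kb
  have i1 := tri_intg μ kc.kb hU.kb k01_one.kb
  have i2 := tri_intg μ kc.flip.kb k01_one.kb hU.kb
  have i3 := tri_intg μ hU.kb k01_one.kb kc.flip.kb
  have i4 := tri_intg μ kV.kb kV.kb kV.kb
  have : Tri μ U U U ≤ Tri μ (fun x _ => c x) U (fun _ _ => 1) +
      Tri μ (fun _ y => c y) (fun _ _ => 1) U + Tri μ U (fun _ _ => 1) (fun _ y => c y) +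
      Tri μ (fun x y => U x y * ((1 - c x) * (1 - c y))) (fun x y => U x y * ((1 - c x) * (1 - c y)))
        (fun x y => U x y * ((1 - c x) * (1 - c y))) := by
    unfold Tri
    rw [← int_add3 i1 i2 i3, ← integral_add (f := fun q : α × α × α => c q.1 * U q.2.1 q.2.2 * 1 +
      c q.2.1 * 1 * U q.1 q.2.2 + U q.1 q.2.1 * 1 * c q.2.2) ((i1.add i2).add i3) i4]
    refine integral_mono (tri_intg μ hU.kb hU.kb hU.kb) (((i1.add i2).add i3).add i4) fun q => ?_
    have a1 := hU.nonneg q.1 q.2.1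
    have a2 := hU.nonneg q.2.1 q.2.2
    have a3 := hU.nonneg q.1 q.2.2
    have b1 := hU.le_one q.1 q.2.1
    have b2 := hU.le_one q.2.1 q.2.2
    have b3 := hU.le_one q.1 q.2.2
    have d1 : U q.1 q.2.1 * U q.2.1 q.2.2 * U q.1 q.2.2 ≤ U q.1 q.2.1 := by
      rw [mul_assoc]; exact mul_le_of_le_one_right a1 (mul_le_one₀ b2 a3 b3)
    have d2 : U q.1 q.2.1 * U q.2.1 q.2.2 * U q.1 q.2.2 ≤ U q.2.1 q.2.2 := by
      rw [mul_comm (U q.1 q.2.1), mul_assoc]
      exact mul_le_of_le_one_right a2 (mul_le_one₀ b1 a3 b3)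
    have d3 : U q.1 q.2.1 * U q.2.1 q.2.2 * U q.1 q.2.2 ≤ U q.1 q.2.2 :=
      mul_le_of_le_one_left a3 (mul_le_one₀ b1 a2 b2)
    rcases h q.1 with x1 | x1 <;> rcases h q.2.1 with x2 | x2 <;> rcases h q.2.2 with x3 | x3 <;>
      simp only [x1, x2, x3] <;> linarith
  rw [e3, e2, e1] at this
  linarith

theorem sq_split {U : α → α → ℝ} (hU : K01 U) (hs : ∀ x y, U x y = U y x) {c : α → ℝ}
    (hc : Measurable c) (h : ∀ x, c x = 0 ∨ c x = 1) :
    2 * (∫ z : α × α, c z.1 * (U z.1 z.2 * (1 - c z.2)) ^ 2 ∂(μ.prod μ)) +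
      ∫ z : α × α, (U z.1 z.2 * ((1 - c z.1) * (1 - c z.2))) ^ 2 ∂(μ.prod μ) ≤
      ∫ z : α × α, U z.1 z.2 ^ 2 ∂(μ.prod μ) := by
  have h' : ∀ x, 0 ≤ c x ∧ c x ≤ 1 := fun x => by rcases h x with e | e <;> simp [e]
  have h'' : ∀ x, 0 ≤ 1 - c x ∧ 1 - c x ≤ 1 := fun x => ⟨by linarith [(h' x).2], by linarith [(h' x).1]⟩
  have kc := k01_fst hc h'
  have kc' := k01_fst (c := fun x => 1 - c x) (measurable_const.sub hc) h''
  have i1 := (kc.mul (hU.mul kc'.flip).sq).kb.intg μ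
  have i2 := (kc.mul (hU.mul kc'.flip).sq).flip.kb.intg μ
  have i3 := (hU.mul (kc'.mul kc'.flip)).sq.kb.intg μ
  have e : ∫ z : α × α, c z.1 * (U z.1 z.2 * (1 - c z.2)) ^ 2 ∂(μ.prod μ) =
      ∫ z : α × α, c z.2 * (U z.2 z.1 * (1 - c z.1)) ^ 2 ∂(μ.prod μ) := by
    rw [← integral_prod_swap]
    rfl
  rw [two_mul]
  nth_rewrite 2 [e]
  rw [← int_add3 i1 i2 i3]
  refine integral_mono ((i1.add i2).add i3) (hU.sq.kb.intg μ) fun z => ?_
  have := sq_nonneg (U z.1 z.2)
  rcases h z.1 with x1 | x1 <;> rcases h z.2 with x2 | x2 <;> simp only [x1, x2, hs z.2 z.1] <;>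
    nlinarith

theorem lower {p q L : ℝ} (P : Par p q L) {U : α → α → ℝ} (hU : K01 U)
    (hs : ∀ x y, U x y = U y x) (hp : ∀ x y, p + U x y ≤ 1)
    (hJ : JJ μ (fun u => phi p (p + u)) U ≤ 6 * p ^ 2 * L) :
    98 / 100 * L * (2 * Tri μ U (fun _ _ => 1) U - 4 / 100 * p ^ 2) ≤
        JJ μ (fun u => phi p (p + u)) U ∧
      (p ^ 3 ≤ 3 * p ^ 2 * (∫ z : α × α, U z.1 z.2 ∂(μ.prod μ)) + Tri μ U U U →
        98 / 100 * L * (2 * Tri μ U (fun _ _ => 1) U + 94 / 100 * p ^ 2) ≤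
          JJ μ (fun u => phi p (p + u)) U) := by
  classical
  have p0 := P.p0
  have p1 := P.p1
  have ps := P.p_small
  have hL := P.hL
  have hL0 : 0 < L := by rw [hL]; norm_num
  set J := JJ μ (fun u => phi p (p + u)) U with hJdef
  have hφ : Continuous fun u => phi p (p + u) := (phi_cont p).comp (continuous_const.add continuous_id)
  have iJ := intg_phi (μ.prod μ) hφ hU.meas (fun z => hU.nonneg _ _) fun z => hU.le_one _ _
  have hg : ∀ x y l, l * U x y - p * (Real.exp l - 1 - l) ≤ phi p (p + U x y) := fun x y l => by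
    simpa using gibbs p0 p1 (by linarith [hU.nonneg x y]) (hp x y) l
  set d : α → ℝ := fun x => ∫ y, U x y ∂μ with hd
  set j : α → ℝ := fun x => ∫ y, phi p (p + U x y) ∂μ with hj
  have md : Measurable d := meas_row μ hU.meas
  have d01 : ∀ x, 0 ≤ d x ∧ d x ≤ 1 := hU.deg_mem μ
  have ij : Integrable j μ := iJ.integral_prod_left
  have eJ : J = ∫ x, j x ∂μ := integral_prod _ iJ
  have hdj : ∀ x l, 0 ≤ l → l * d x - p * (Real.exp l - 1 - l) ≤ j x := by
    intro x l _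
    have : ∫ y, (l * U x y - p * (Real.exp l - 1 - l)) ∂μ ≤ j x :=
      integral_mono (((hU.row_intg μ x).const_mul l).sub (integrable_const _))
        (intg_phi μ hφ (hU.row x) (hU.nonneg x) (hU.le_one x)) fun y => hg x y l
    rw [integral_sub ((hU.row_intg μ x).const_mul l) (integrable_const _), integral_const_mul]
      at this
    simpa using this
  have j0 : ∀ x, 0 ≤ j x := fun x => by simpa using hdj x 0 le_rfl
  set c : α → ℝ := fun x => if 1 / 2400 < d x then 1 else 0 with hcdef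
  have mc : Measurable c := Measurable.ite (measurableSet_lt measurable_const md)
    measurable_const measurable_const
  have hc : ∀ x, c x = 0 ∨ c x = 1 := fun x => by
    by_cases h : 1 / 2400 < d x
    · exact Or.inr (if_pos h)
    · exact Or.inl (if_neg h)
  have h' : ∀ x, 0 ≤ c x ∧ c x ≤ 1 := fun x => by rcases hc x with e | e <;> simp [e]
  have h'' : ∀ x, 0 ≤ 1 - c x ∧ 1 - c x ≤ 1 := fun x => ⟨by linarith [(h' x).2], by linarith [(h' x).1]⟩
  have kc := k01_fst mc h'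
  have kc' := k01_fst (c := fun x => 1 - c x) (measurable_const.sub mc) h''
  have ic : Integrable c μ := intg mc 1 fun x => by rw [abs_of_nonneg (h' x).1]; exact (h' x).2
  have idd : Integrable d μ := intg md 1 fun x => by rw [abs_of_nonneg (d01 x).1]; exact (d01 x).2
  set β := ∫ x, c x ∂μ with hβ
  have β0 : 0 ≤ β := integral_nonneg fun x => (h' x).1
  have β1 : β ≤ 57600 * p ^ 2 := by
    have : ∫ x, c x * (L * (1 / 2400) / 4) ∂μ ≤ ∫ x, j x ∂μ := by
      refine integral_mono (ic.mul_const _) ij fun x => ?_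
      by_cases h : 1 / 2400 < d x
      · simp only [hcdef, h, if_true, one_mul]
        exact P.lowB (hdj x) h.le (by norm_num)
      · simp only [hcdef, h, if_false, zero_mul]
        exact j0 x
    rw [integral_mul_const, ← hβ, ← eJ] at this
    rw [hL] at this hJ
    linarith
  set E := ∫ z : α × α, U z.1 z.2 ∂(μ.prod μ) with hE
  have eE : E = ∫ x, d x ∂μ := integral_prod _ (hU.kb.intg μ)
  have E0 : 0 ≤ E := integral_nonneg fun z => hU.nonneg _ _
  have E1 : E ≤ 4 / 10 ^ 8 * p := by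
    have : ∫ x, (1 / 10 ^ 8 * d x - 3 * p * (1 / 10 ^ 8) ^ 2) ∂μ ≤ ∫ x, j x ∂μ :=
      integral_mono ((idd.const_mul _).sub (integrable_const _)) ij fun x =>
        P.lowC (hdj x) (by norm_num) (by norm_num)
    rw [integral_sub (idd.const_mul _) (integrable_const _), integral_const_mul, ← eE, ← eJ] at this
    simp only [integral_const, probReal_univ, smul_eq_mul, one_mul] at this
    rw [hL] at hJ
    nlinarith
  set Xb := ∫ z : α × α, c z.1 * (U z.1 z.2 * (1 - c z.2)) ^ 2 ∂(μ.prod μ) with hXb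
  set Xc := ∫ z : α × α, (U z.1 z.2 * ((1 - c z.1) * (1 - c z.2))) ^ 2 ∂(μ.prod μ) with hXc
  have Xc0 : 0 ≤ Xc := integral_nonneg fun z => sq_nonneg _
  have hsum := sq_split μ hU hs mc hc
  rw [← hXb, ← hXc] at hsum
  have hsq : 98 / 100 * L * ∫ z : α × α, U z.1 z.2 ^ 2 ∂(μ.prod μ) ≤ J := by
    rw [← integral_const_mul]
    exact integral_mono ((hU.sq.kb.intg μ).const_mul _) iJ fun z =>
      P.lowD (fun l _ => hg z.1 z.2 l) (hU.nonneg _ _) (hU.le_one _ _)
  have hCh : Tri μ U (fun _ _ => 1) U ≤ Xb + 2 / 100 * p ^ 2 := by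
    rw [tri_cherry μ hU]
    have kW := hU.mul kc'.flip
    have iX := (kc.mul kW.sq).kb.intg μ
    have eX : Xb = ∫ x, ∫ y, c x * (U x y * (1 - c y)) ^ 2 ∂μ ∂μ := integral_prod _ iX
    have hpt : ∀ x, d x ^ 2 ≤ 4 * (1 / 2400) / L * j x + ∫ y, c x * (U x y * (1 - c y)) ^ 2 ∂μ +
        c x * (3 * β) := by
      intro x
      have n0 : 0 ≤ ∫ y, (U x y * (1 - c y)) ^ 2 ∂μ := (kW.sq.deg_mem μ x).1
      rw [integral_const_mul]
      by_cases h : 1 / 2400 < d x
      · have cx : c x = 1 := if_pos h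
        have a1 : d x ≤ β + ∫ y, U x y * (1 - c y) ∂μ := by
          rw [hβ, ← integral_add ic (kW.row_intg μ x)]
          refine integral_mono (hU.row_intg μ x) (ic.add (kW.row_intg μ x)) fun y => ?_
          have := hU.le_one x y
          rcases hc y with e | e <;> simp only [e] <;> linarith
        have a2 := cs_sq μ (kW.row x) (measurable_const (a := (1 : ℝ))) (kW.kb.bdd x)
          (fun _ => by simp)
        simp only [mul_one, one_pow, integral_const, probReal_univ, smul_eq_mul] at a2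
        have a3 := kW.deg_mem μ x
        have a4 : β ≤ 1 := by nlinarith
        have a5 : 0 ≤ 4 * (1 / 2400) / L * j x := mul_nonneg (by positivity) (j0 x)
        have a6 := pow_le_pow_left₀ (d01 x).1 a1 2
        rw [cx]
        nlinarith [a3.1, a3.2]
      · have cx : c x = 0 := if_neg h
        have a1 := P.lowA (hdj x) (d01 x).1 (not_lt.1 h) (by norm_num)
        rw [cx, hL] at *
        linarith
    have i2 : Integrable (fun x => d x ^ 2) μ := intg (md.pow_const 2) 1 fun x => by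
      rw [abs_of_nonneg (sq_nonneg _)]; exact pow_le_one₀ (d01 x).1 (d01 x).2
    have iX' : Integrable (fun x => ∫ y, c x * (U x y * (1 - c y)) ^ 2 ∂μ) μ :=
      iX.integral_prod_left
    have : ∫ x, d x ^ 2 ∂μ ≤ ∫ x, (4 * (1 / 2400) / L * j x +
        ∫ y, c x * (U x y * (1 - c y)) ^ 2 ∂μ + c x * (3 * β)) ∂μ :=
      integral_mono i2 (((ij.const_mul _).add iX').add (ic.mul_const _)) hpt
    rw [int_add3 (ij.const_mul _) iX' (ic.mul_const _), integral_const_mul,
      integral_mul_const, ← eX, ← eJ, ← hβ] at this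
    have b1 : β * (3 * β) ≤ 1 / 100 * p ^ 2 := by
      have : β ≤ 1 / 100 * p := by nlinarith
      nlinarith
    rw [hL] at this hJ
    linarith
  refine ⟨by nlinarith, fun hfe => ?_⟩
  have kV : K01 fun x y => U x y * ((1 - c x) * (1 - c y)) := hU.mul (kc'.mul kc'.flip)
  have t1 := tri_split μ hU mc hc
  have t2 := tri_le_sqrt μ kV
  rw [← hXc] at t2
  rw [← hβ, ← hE] at t1
  have t3 : 98 / 100 * p ^ 2 ≤ Xc := by
    by_contra hcon
    have u1 : Xc ≤ (99 / 100 * p) ^ 2 := by nlinarith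
    have u2 : Real.sqrt Xc ≤ 99 / 100 * p := Real.sqrt_le_iff.2 ⟨by positivity, u1⟩
    have u3 : Real.sqrt Xc * Xc ≤ (99 / 100 * p) * (99 / 100 * p) ^ 2 := by gcongr
    have u4 : β * E ≤ (57600 * p ^ 2) * (4 / 10 ^ 8 * p) := by gcongr
    have u5 : p ^ 2 * E ≤ p ^ 2 * (4 / 10 ^ 8 * p) := by gcongr
    have u6 : 0 < p ^ 3 := by positivity
    nlinarith
  nlinarith

end Pool.Agent.H299Z.Gr
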