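import Pool.Agent.H299Z.Gr.Reg

set_option autoImplicit false
set_option linter.unusedSectionVars false
set_option synthInstance.maxSize 4096

open MeasureTheory Filter Topology

namespace Pool.Agent.H299Z.Gr

/-- the compact space of codes -/
abbrev Om : Type := ℕ → Bool × Bool

/-- extension of a finite code -/
def ext (k : ℕ) (i : Fin k → Bool × Bool) : Om := fun n => if h : n < k then i ⟨n, h⟩ else default

theorem tendsto_ext (ω : Om) : Tendsto (fun k => ext k (lev k ω)) atTop (𝓝 ω) := by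
  refine tendsto_pi_nhds.2 fun n => ?_
  refine tendsto_const_nhds.congr' ?_
  filter_upwards [eventually_gt_atTop n] with k hk
  simp [ext, hk, lev]

theorem lev_cont (k : ℕ) : Continuous (lev k) := continuous_pi fun _ => continuous_apply _

theorem res_tendsto (m : Measure Om) [IsProbabilityMeasure m] {U : Om → Om → ℝ} (hU : K01 U) :
    Tendsto (fun k => res m U (lev k)) atTop (𝓝 0) := by
  refine Metric.tendsto_nhds.2 fun ε hε => ?_
  obtain ⟨g, hg, -⟩ := (hU.kb.intg m).exists_boundedContinuous_integral_sub_le (half_pos hε)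
  set g' : Om × Om → ℝ := fun z => max 0 (min 1 (g z)) with hg'
  have gc : Continuous g' := continuous_const.max (continuous_const.min g.continuous)
  have g0 : ∀ z, 0 ≤ g' z := fun z => le_max_left _ _
  have g1 : ∀ z, g' z ≤ 1 := fun z => max_le zero_le_one (min_le_left _ _)
  have hclip : ∀ z : Om × Om, |U z.1 z.2 - g' z| ≤ |U z.1 z.2 - g z| := by
    intro z
    have h0 := hU.nonneg z.1 z.2
    have h1 := hU.le_one z.1 z.2
    simp only [hg']
    rcases le_total (g z) 0 with h | h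
    · rw [min_eq_right (by linarith), max_eq_left h, abs_of_nonneg (by linarith),
        abs_of_nonneg (by linarith)]
      linarith
    · rcases le_total (g z) 1 with h' | h'
      · rw [min_eq_right h', max_eq_right h]
      · rw [min_eq_left h', max_eq_right zero_le_one, abs_of_nonpos (by linarith),
          abs_of_nonpos (by linarith)]
        linarith
  have hm : ∀ k, Measurable fun z : Om × Om => g' (ext k (lev k z.1), ext k (lev k z.2)) :=
    fun k => meas_cell2 (lev_meas k) fun i j => g' (ext k i, ext k j)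
  have hb : ∀ (k : ℕ) (z : Om × Om), |g' z - g' (ext k (lev k z.1), ext k (lev k z.2))| ≤ 1 :=
    fun k z => abs_le.2 ⟨by linarith [g0 z, g1 (ext k (lev k z.1), ext k (lev k z.2))],
      by linarith [g1 z, g0 (ext k (lev k z.1), ext k (lev k z.2))]⟩
  have hlim : Tendsto (fun k => ∫ z : Om × Om,
      |g' z - g' (ext k (lev k z.1), ext k (lev k z.2))| ∂(m.prod m)) atTop
      (𝓝 (∫ _z : Om × Om, (0 : ℝ) ∂(m.prod m))) := by
    refine tendsto_integral_of_dominated_convergence (fun _ => 1)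
      (fun k => (gc.measurable.sub (hm k)).abs.aestronglyMeasurable) (integrable_const _)
      (fun k => Eventually.of_forall fun z => by simpa using hb k z)
      (Eventually.of_forall fun z => ?_)
    have h1 : Tendsto (fun k => g' (ext k (lev k z.1), ext k (lev k z.2))) atTop (𝓝 (g' z)) :=
      (gc.tendsto z).comp ((tendsto_ext z.1).prodMk_nhds (tendsto_ext z.2))
    have := ((tendsto_const_nhds (x := g' z)).sub h1).abs
    simpa using this
  simp only [integral_zero] at hlim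
  filter_upwards [hlim.eventually (gt_mem_nhds (half_pos hε))] with k hk
  rw [Real.dist_eq, sub_zero, abs_of_nonneg (res_nonneg m _ _)]
  have h1 := res_le m hU (lev_meas k) fun i j => g' (ext k i, ext k j)
  have i1 : Integrable (fun z : Om × Om => ‖U z.1 z.2 - g z‖) (m.prod m) :=
    ((hU.kb.intg m).sub (g.integrable _)).norm
  have i2 : Integrable (fun z : Om × Om => |g' z - g' (ext k (lev k z.1), ext k (lev k z.2))|)
      (m.prod m) := intg (gc.measurable.sub (hm k)).abs 1 fun z => by simpa using hb k z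
  have h2 : ∫ z : Om × Om, (U z.1 z.2 - g' (ext k (lev k z.1), ext k (lev k z.2))) ^ 2 ∂(m.prod m)
      ≤ ∫ z : Om × Om, (‖U z.1 z.2 - g z‖ + |g' z - g' (ext k (lev k z.1), ext k (lev k z.2))|)
        ∂(m.prod m) := by
    refine integral_mono_of_nonneg (Eventually.of_forall fun z => sq_nonneg _) (i1.add i2)
      (Eventually.of_forall fun z => ?_)
    have a1 : |U z.1 z.2 - g' (ext k (lev k z.1), ext k (lev k z.2))| ≤ 1 :=
      abs_le.2 ⟨by linarith [hU.nonneg z.1 z.2, g1 (ext k (lev k z.1), ext k (lev k z.2))],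
        by linarith [hU.le_one z.1 z.2, g0 (ext k (lev k z.1), ext k (lev k z.2))]⟩
    have a2 := abs_sub_le (U z.1 z.2) (g' z) (g' (ext k (lev k z.1), ext k (lev k z.2)))
    have a3 := hclip z
    show (U z.1 z.2 - g' (ext k (lev k z.1), ext k (lev k z.2))) ^ 2 ≤
      ‖U z.1 z.2 - g z‖ + |g' z - g' (ext k (lev k z.1), ext k (lev k z.2))|
    rw [← sq_abs, Real.norm_eq_abs]
    nlinarith [abs_nonneg (U z.1 z.2 - g' (ext k (lev k z.1), ext k (lev k z.2)))]
  rw [integral_add i1 i2] at h2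
  linarith

theorem tend_int {X κ : Type*} [TopologicalSpace X] [CompactSpace X] [MeasurableSpace X]
    [OpensMeasurableSpace X] {L : Filter κ} {νs : κ → ProbabilityMeasure X}
    {ν : ProbabilityMeasure X} (h : Tendsto νs L (𝓝 ν)) {F : X → ℝ} (hF : Continuous F) :
    Tendsto (fun n => ∫ x, F x ∂(νs n : Measure X)) L (𝓝 (∫ x, F x ∂(ν : Measure X))) :=
  ProbabilityMeasure.tendsto_iff_forall_integral_tendsto.1 h
    (BoundedContinuousFunction.mkOfCompact ⟨F, hF⟩)

/-- the affine map fixing `1` and sending `0` to `c` -/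
def af (c d : ℝ) : ℝ := c + (1 - c) * d

theorem af_mem {c d : ℝ} (hc : c ∈ Set.Icc (0 : ℝ) 1) (h0 : 0 ≤ d) (h1 : d ≤ 1) :
    0 ≤ af c d ∧ af c d ≤ 1 := by
  unfold af
  constructor <;> nlinarith [hc.1, hc.2]

theorem af_abs {c d : ℝ} (hc : c ∈ Set.Icc (0 : ℝ) 1) (h0 : 0 ≤ d) (h1 : d ≤ 1) :
    |af c d| ≤ 1 := by
  rw [abs_of_nonneg (af_mem hc h0 h1).1]; exact (af_mem hc h0 h1).2

theorem K01.af {α : Type*} [MeasurableSpace α] {W : α → α → ℝ} (hW : K01 W) {c : ℝ}
    (hc : c ∈ Set.Icc (0 : ℝ) 1) : K01 fun x y => af c (W x y) :=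
  ⟨(hW.meas.const_mul _).const_add _, fun x y => (af_mem hc (hW.nonneg x y) (hW.le_one x y)).1,
    fun x y => (af_mem hc (hW.nonneg x y) (hW.le_one x y)).2⟩

theorem CutLe.af {α : Type*} [MeasurableSpace α] {μ : Measure α} {A B : α → α → ℝ} {ε c : ℝ}
    (h : CutLe μ (fun x y => A x y - B x y) ε) (hc : c ∈ Set.Icc (0 : ℝ) 1) :
    CutLe μ (fun x y => af c (A x y) - af c (B x y)) ε := by
  intro f g hf hg hf1 hg1
  have h1 := h f g hf hg hf1 hg1
  have e : (fun z : α × α => (Gr.af c (A z.1 z.2) - Gr.af c (B z.1 z.2)) * (f z.1 * g z.2)) =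
      fun z : α × α => (1 - c) * ((A z.1 z.2 - B z.1 z.2) * (f z.1 * g z.2)) := by
    funext z; unfold Gr.af; ring
  rw [e, integral_const_mul, abs_mul, abs_of_nonneg (by linarith [hc.2])]
  calc (1 - c) * _ ≤ 1 * ε :=
        mul_le_mul (by linarith [hc.1]) h1 (abs_nonneg _) zero_le_one
    _ = ε := one_mul ε

theorem ratio_tendsto {κ : Type*} {L : Filter κ} {a b c e1 e2 e3 : κ → ℝ} {A B C E1 E2 E3 : ℝ}
    (ha : Tendsto a L (𝓝 A)) (hb : Tendsto b L (𝓝 B)) (hc : Tendsto c L (𝓝 C))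
    (h1 : Tendsto e1 L (𝓝 E1)) (h2 : Tendsto e2 L (𝓝 E2)) (h3 : Tendsto e3 L (𝓝 E3))
    (c1 c2 c3 : ℝ)
    (hbd : ∀ n, |af c1 (e1 n / (a n * b n)) * af c2 (e2 n / (b n * c n)) *
      af c3 (e3 n / (a n * c n))| ≤ 1) :
    Tendsto (fun n => a n * b n * c n * (af c1 (e1 n / (a n * b n)) * af c2 (e2 n / (b n * c n)) *
      af c3 (e3 n / (a n * c n)))) L
      (𝓝 (A * B * C * (af c1 (E1 / (A * B)) * af c2 (E2 / (B * C)) * af c3 (E3 / (A * C))))) := by
  by_cases h0 : A * B * C = 0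
  · rw [h0, zero_mul]
    have h4 : Tendsto (fun n => a n * b n * c n) L (𝓝 0) := h0 ▸ (ha.mul hb).mul hc
    refine squeeze_zero_norm (a := fun n => ‖a n * b n * c n‖) (fun n => ?_)
      (by simpa using h4.norm)
    rw [norm_mul]
    exact mul_le_of_le_one_right (norm_nonneg _) (hbd n)
  · have hA : A ≠ 0 := fun h => h0 (by simp [h])
    have hB : B ≠ 0 := fun h => h0 (by simp [h])
    have hC : C ≠ 0 := fun h => h0 (by simp [h])
    unfold af
    exact ((ha.mul hb).mul hc).mul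
      (((((h1.div (ha.mul hb) (mul_ne_zero hA hB)).const_mul _).const_add _).mul
      (((h2.div (hb.mul hc) (mul_ne_zero hB hC)).const_mul _).const_add _)).mul
      (((h3.div (ha.mul hc) (mul_ne_zero hA hC)).const_mul _).const_add _))

/-- triangle form of affine images of one kernel -/
noncomputable def TA {α : Type*} [MeasurableSpace α] (μ : Measure α) (c1 c2 c3 : ℝ)
    (W : α → α → ℝ) : ℝ :=
  Tri μ (fun x y => af c1 (W x y)) (fun x y => af c2 (W x y)) (fun x y => af c3 (W x y))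

theorem TA_step {α : Type*} [MeasurableSpace α] (μ : Measure α) [IsProbabilityMeasure μ]
    {ι : Type*} [Fintype ι] [DecidableEq ι] [MeasurableSpace ι] [DiscreteMeasurableSpace ι]
    {W : α → α → ℝ} (hW : K01 W) {a : α → ι} (ha : Measurable a) {c1 c2 c3 : ℝ}
    (h1 : c1 ∈ Set.Icc (0 : ℝ) 1) (h2 : c2 ∈ Set.Icc (0 : ℝ) 1) (h3 : c3 ∈ Set.Icc (0 : ℝ) 1) :
    TA μ c1 c2 c3 (step μ W a) = ∑ i, ∑ j, ∑ l, cm μ a i * cm μ a j * cm μ a l *
      (af c1 (cd μ W a i j) * af c2 (cd μ W a j l) * af c3 (cd μ W a i l)) :=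
  tri_cell μ ha (fun i j => af c1 (cd μ W a i j)) (fun i j => af c2 (cd μ W a i j))
    (fun i j => af c3 (cd μ W a i j))
    (fun i j => af_abs h1 (cd_nonneg μ hW a i j) (cd_le_one μ hW ha i j))
    (fun i j => af_abs h2 (cd_nonneg μ hW a i j) (cd_le_one μ hW ha i j))
    (fun i j => af_abs h3 (cd_nonneg μ hW a i j) (cd_le_one μ hW ha i j))

theorem TA_count {α : Type*} [MeasurableSpace α] (μ : Measure α) [IsProbabilityMeasure μ]
    {A B : α → α → ℝ} (hA : K01 A) (hB : K01 B) {ε : ℝ}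
    (h : CutLe μ (fun x y => A x y - B x y) ε) {c1 c2 c3 : ℝ}
    (h1 : c1 ∈ Set.Icc (0 : ℝ) 1) (h2 : c2 ∈ Set.Icc (0 : ℝ) 1) (h3 : c3 ∈ Set.Icc (0 : ℝ) 1) :
    |TA μ c1 c2 c3 A - TA μ c1 c2 c3 B| ≤ 3 * ε :=
  tri_count μ (hA.af h1) (hA.af h2) (hA.af h3) (hB.af h1) (hB.af h2) (hB.af h3)
    (h.af h1) (h.af h2) (h.af h3)

theorem TA_step_tendsto {α β κ : Type*} [MeasurableSpace α] [MeasurableSpace β]
    (μ : Measure α) [IsProbabilityMeasure μ] (m : Measure β) [IsProbabilityMeasure m]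
    {ι : Type*} [Fintype ι] [DecidableEq ι] [MeasurableSpace ι] [DiscreteMeasurableSpace ι]
    {L : Filter κ} {W : κ → α → α → ℝ} (hW : ∀ n, K01 (W n)) {a : κ → α → ι}
    (ha : ∀ n, Measurable (a n)) {U : β → β → ℝ} (hU : K01 U) {b : β → ι} (hb : Measurable b)
    (hm : ∀ i, Tendsto (fun n => cm μ (a n) i) L (𝓝 (cm m b i)))
    (he : ∀ i j, Tendsto (fun n => ce μ (W n) (a n) i j) L (𝓝 (ce m U b i j))) {c1 c2 c3 : ℝ}
    (h1 : c1 ∈ Set.Icc (0 : ℝ) 1) (h2 : c2 ∈ Set.Icc (0 : ℝ) 1) (h3 : c3 ∈ Set.Icc (0 : ℝ) 1) :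
    Tendsto (fun n => TA μ c1 c2 c3 (step μ (W n) (a n))) L (𝓝 (TA m c1 c2 c3 (step m U b))) := by
  rw [TA_step m hU hb h1 h2 h3]
  simp only [fun n => TA_step μ (hW n) (ha n) h1 h2 h3]
  refine tendsto_finsetSum _ fun i _ => tendsto_finsetSum _ fun j _ =>
    tendsto_finsetSum _ fun l _ => ?_
  refine ratio_tendsto (hm i) (hm j) (hm l) (he i j) (he j l) (he i l) c1 c2 c3 fun n => ?_
  rw [abs_mul, abs_mul]
  exact mul_le_one₀ (mul_le_one₀
    (af_abs h1 (cd_nonneg μ (hW n) _ i j) (cd_le_one μ (hW n) (ha n) i j)) (abs_nonneg _)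
    (af_abs h2 (cd_nonneg μ (hW n) _ j l) (cd_le_one μ (hW n) (ha n) j l))) (abs_nonneg _)
    (af_abs h3 (cd_nonneg μ (hW n) _ i l) (cd_le_one μ (hW n) (ha n) i l))

end Pool.Agent.H299Z.Gr
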