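import Pool.Agent.H299Z.Gr.LZ

set_option autoImplicit false
set_option linter.unusedSectionVars false

open MeasureTheory Filter Topology

namespace Pool.Agent.H299Z.Gr

section General

variable {α : Type*} [MeasurableSpace α] (μ : Measure α) [IsProbabilityMeasure μ]

theorem tri_e2 (U : α → α → ℝ) :
    Tri μ (fun _ _ => 1) U (fun _ _ => 1) = ∫ z : α × α, U z.1 z.2 ∂(μ.prod μ) := by
  simpa using tri_c μ U fun _ => 1

theorem tri_e3 {U : α → α → ℝ} (hU : K01 U) :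
    Tri μ (fun _ _ => 1) (fun _ _ => 1) U = ∫ z : α × α, U z.1 z.2 ∂(μ.prod μ) := by
  rw [tri_swap12 μ k01_one.kb k01_one.kb hU.kb, tri_e2]

theorem tri_e1 {U : α → α → ℝ} (hU : K01 U) :
    Tri μ U (fun _ _ => 1) (fun _ _ => 1) = ∫ z : α × α, U z.1 z.2 ∂(μ.prod μ) := by
  rw [tri_swap23 μ hU.kb k01_one.kb k01_one.kb, tri_e3 μ hU]

theorem tri_c12 {U : α → α → ℝ} (hU : K01 U) (hs : ∀ x y, U x y = U y x) :
    Tri μ U U (fun _ _ => 1) = Tri μ U (fun _ _ => 1) U := by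
  have : (fun x y => U y x) = U := by funext x y; exact hs y x
  rw [tri_swap12 μ hU.kb hU.kb k01_one.kb, this]

theorem tri_c23 {U : α → α → ℝ} (hU : K01 U) (hs : ∀ x y, U x y = U y x) :
    Tri μ (fun _ _ => 1) U U = Tri μ U (fun _ _ => 1) U := by
  have : (fun x y => U y x) = U := by funext x y; exact hs y x
  rw [tri_swap23 μ k01_one.kb hU.kb hU.kb, this, tri_c12 μ hU hs]

theorem expand3 {U : α → α → ℝ} (hU : K01 U) (hs : ∀ x y, U x y = U y x) (p : ℝ) :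
    Tri μ (fun x y => p + U x y) (fun x y => p + U x y) (fun x y => p + U x y) =
      p ^ 3 + 3 * p ^ 2 * (∫ z : α × α, U z.1 z.2 ∂(μ.prod μ)) +
        3 * p * Tri μ U (fun _ _ => 1) U + Tri μ U U U := by
  have a1 := tri_e1 μ hU
  have a2 := tri_e2 μ U
  have a3 := tri_e3 μ hU
  have b1 := tri_c12 μ hU hs
  have b2 := tri_c23 μ hU hs
  have i1 := tri_intg μ hU.kb k01_one.kb k01_one.kb
  have i2 := tri_intg μ k01_one.kb hU.kb k01_one.kb
  have i3 := tri_intg μ k01_one.kb k01_one.kb hU.kb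
  have j1 := tri_intg μ hU.kb hU.kb k01_one.kb
  have j2 := tri_intg μ k01_one.kb hU.kb hU.kb
  have j3 := tri_intg μ hU.kb k01_one.kb hU.kb
  have k1 := tri_intg μ hU.kb hU.kb hU.kb
  have c1 := int_add3 i1 i2 i3
  have c2 := int_add3 j1 j2 j3
  have i123 : Integrable (fun q : α × α × α => p ^ 2 * (U q.1 q.2.1 * 1 * 1 + 1 * U q.2.1 q.2.2 * 1 +
      1 * 1 * U q.1 q.2.2)) (μ.prod (μ.prod μ)) := ((i1.add i2).add i3).const_mul _
  have j123 : Integrable (fun q : α × α × α => p * (U q.1 q.2.1 * U q.2.1 q.2.2 * 1 +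
      1 * U q.2.1 q.2.2 * U q.1 q.2.2 + U q.1 q.2.1 * 1 * U q.1 q.2.2)) (μ.prod (μ.prod μ)) :=
    ((j1.add j2).add j3).const_mul _
  have c3 := int_add3 i123 j123 k1
  rw [integral_const_mul, integral_const_mul, c1, c2] at c3
  have c4 := integral_add (integrable_const (p ^ 3)) ((i123.add j123).add k1)
  simp only [Pi.add_apply, integral_const, probReal_univ, smul_eq_mul] at c4
  unfold Tri at *
  rw [c3, a1, a2, a3, b1, b2] at c4
  refine Eq.trans ?_ (c4.trans (by ring))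
  exact integral_congr_ae (Eventually.of_forall fun q => by ring)

theorem expand2 {U : α → α → ℝ} (hU : K01 U) (p : ℝ) :
    Tri μ (fun x y => p + U x y) (fun _ _ => 1) (fun x y => p + U x y) =
      p ^ 2 + 2 * p * (∫ z : α × α, U z.1 z.2 ∂(μ.prod μ)) + Tri μ U (fun _ _ => 1) U := by
  have a1 := tri_e1 μ hU
  have a3 := tri_e3 μ hU
  have i1 := tri_intg μ hU.kb k01_one.kb k01_one.kb
  have i3 := tri_intg μ k01_one.kb k01_one.kb hU.kb
  have j3 := tri_intg μ hU.kb k01_one.kb hU.kb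
  have c3 := int_add3 (i1.const_mul p) (i3.const_mul p) j3
  rw [integral_const_mul, integral_const_mul] at c3
  have c4 := integral_add (integrable_const (p ^ 2)) (((i1.const_mul p).add (i3.const_mul p)).add j3)
  simp only [Pi.add_apply, integral_const, probReal_univ, smul_eq_mul] at c4
  unfold Tri at *
  rw [c3, a1, a3] at c4
  refine Eq.trans ?_ (c4.trans (by ring))
  exact integral_congr_ae (Eventually.of_forall fun q => by ring)

theorem expand1 {U : α → α → ℝ} (hU : K01 U) (p : ℝ) :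
    Tri μ (fun x y => p + U x y) (fun _ _ => 1) (fun _ _ => 1) =
      p + ∫ z : α × α, U z.1 z.2 ∂(μ.prod μ) := by
  have a1 := tri_e1 μ hU
  have i1 := tri_intg μ hU.kb k01_one.kb k01_one.kb
  have c4 := integral_add (integrable_const p) i1
  simp only [integral_const, probReal_univ, smul_eq_mul] at c4
  unfold Tri at *
  rw [a1] at c4
  refine Eq.trans ?_ (c4.trans (by ring))
  exact integral_congr_ae (Eventually.of_forall fun q => by ring)

theorem tri_nonneg {A B C : α → α → ℝ} (hA : K01 A) (hB : K01 B) (hC : K01 C) :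
    0 ≤ Tri μ A B C :=
  integral_nonneg fun _ => mul_nonneg (mul_nonneg (hA.nonneg _ _) (hB.nonneg _ _)) (hC.nonneg _ _)

theorem K01.scale {V : α → α → ℝ} (hV : K01 V) {p : ℝ} (hp : p ∈ Set.Icc (0 : ℝ) 1) :
    K01 fun x y => (1 - p) * V x y :=
  ⟨hV.meas.const_mul _, fun x y => mul_nonneg (by linarith [hp.2]) (hV.nonneg x y),
    fun x y => mul_le_one₀ (by linarith [hp.1]) (hV.nonneg x y) (hV.le_one x y)⟩

theorem ch_scale (V : α → α → ℝ) (p : ℝ) :
    Tri μ (fun x y => (1 - p) * V x y) (fun _ _ => 1) (fun x y => (1 - p) * V x y) =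
      (1 - p) ^ 2 * TA μ 0 1 0 V := by
  unfold TA Tri
  rw [← integral_const_mul]
  exact integral_congr_ae (Eventually.of_forall fun q => by simp only [af]; ring)

theorem af_mul {e f a b : ℝ} (he : e ∈ Set.Icc (0 : ℝ) 1) (hf : f ∈ Set.Icc (0 : ℝ) 1)
    (ha : 0 ≤ a ∧ a ≤ 1) (hb : 0 ≤ b ∧ b ≤ 1) : af (e * f) (a * b) ≤ af e a * af f b := by
  unfold af
  have h1 : 0 ≤ e * (1 - f) * (b * (1 - a)) :=
    mul_nonneg (mul_nonneg he.1 (by linarith [hf.2])) (mul_nonneg hb.1 (by linarith [ha.2]))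
  have h2 : 0 ≤ f * (1 - e) * (a * (1 - b)) :=
    mul_nonneg (mul_nonneg hf.1 (by linarith [he.2])) (mul_nonneg ha.1 (by linarith [hb.2]))
  nlinarith

theorem TA_push {V : α → α → ℝ} (hV : K01 V) {p e : ℝ} (hp : p ∈ Set.Icc (0 : ℝ) 1)
    (he : e ∈ Set.Icc (0 : ℝ) 1) :
    e ^ 3 + (1 - e ^ 3) * TA μ p p p V ≤ TA μ p p p fun x y => af e (V x y) := by
  have hW := hV.af hp
  have hW' := (hV.af he).af hp
  have i1 := tri_intg μ hW.kb hW.kb hW.kb
  have c := integral_add (integrable_const (e ^ 3)) (i1.const_mul (1 - e ^ 3))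
  rw [integral_const_mul] at c
  simp only [integral_const, probReal_univ, smul_eq_mul, one_mul] at c
  unfold TA Tri
  rw [← c]
  refine integral_mono ((integrable_const _).add (i1.const_mul _))
    (tri_intg μ hW'.kb hW'.kb hW'.kb) fun q => ?_
  have comm : ∀ v, af p (af e v) = af e (af p v) := fun v => by unfold af; ring
  simp only [comm]
  have m : ∀ x y, 0 ≤ af p (V x y) ∧ af p (V x y) ≤ 1 := fun x y => ⟨hW.nonneg x y, hW.le_one x y⟩
  have he2 : e * e ∈ Set.Icc (0 : ℝ) 1 := ⟨mul_nonneg he.1 he.1, mul_le_one₀ he.2 he.1 he.2⟩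
  have h1 := af_mul he he (m q.1 q.2.1) (m q.2.1 q.2.2)
  have h2 := af_mul he2 he ⟨mul_nonneg (m q.1 q.2.1).1 (m q.2.1 q.2.2).1,
    mul_le_one₀ (m q.1 q.2.1).2 (m q.2.1 q.2.2).1 (m q.2.1 q.2.2).2⟩ (m q.1 q.2.2)
  have h3 := mul_le_mul_of_nonneg_right h1 (af_mem he (m q.1 q.2.2).1 (m q.1 q.2.2).2).1
  refine le_trans (le_of_eq ?_) (h2.trans h3)
  unfold af
  ring

end General

/-- the entropy as a function of the rescaled kernel -/
noncomputable def psi (p d : ℝ) : ℝ := phi p (af p d)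

theorem psi_cont (p : ℝ) : Continuous (psi p) :=
  (phi_cont p).comp (continuous_const.add (continuous_const.mul continuous_id))

theorem psi_convex {p : ℝ} (hp : p ∈ Set.Icc (0 : ℝ) 1) : ConvexOn ℝ (Set.Icc 0 1) (psi p) := by
  refine ⟨convex_Icc 0 1, fun x hx y hy a b ha hb hab => ?_⟩
  have := (phi_convex p).2 (show af p x ∈ Set.Icc (0 : ℝ) 1 from af_mem hp hx.1 hx.2)
    (show af p y ∈ Set.Icc (0 : ℝ) 1 from af_mem hp hy.1 hy.2) ha hb hab
  simp only [smul_eq_mul] at this ⊢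
  have e : af p (a * x + b * y) = a * af p x + b * af p y := by
    unfold af; linear_combination (-p) * hab
  unfold psi
  rw [e]
  exact this

theorem psi_one (p : ℝ) : psi p 1 = -Real.log p := by simp [psi, af, phi_one]

theorem psi_zero (p : ℝ) : psi p 0 = 0 := by simp [psi, af, phi_self]

/-- symmetric kernels with values in the unit interval -/
def G (V : ℝ → ℝ → ℝ) : Prop := K01 V ∧ ∀ x y, V x y = V y x

/-- minimizers of the rescaled problem -/
def IsMin (p t : ℝ) (V : ℝ → ℝ → ℝ) : Prop :=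
  G V ∧ t ≤ TA mu0 p p p V ∧
    ∀ V', G V' → t ≤ TA mu0 p p p V' → JJ mu0 (psi p) V ≤ JJ mu0 (psi p) V'

theorem G_one : G fun _ _ => 1 := ⟨k01_one, fun _ _ => rfl⟩

theorem TA_one (p : ℝ) : TA mu0 p p p (fun _ _ => 1) = 1 := by simp [TA, Tri, af]

theorem JJ_one (p : ℝ) : JJ mu0 (psi p) (fun _ _ => 1) = -Real.log p := by simp [JJ, psi_one]

theorem JJ_nonneg {p : ℝ} (p0 : 0 < p) (p1 : p < 1) {V : ℝ → ℝ → ℝ} (hV : K01 V) :
    0 ≤ JJ mu0 (psi p) V :=
  integral_nonneg fun z => phi_nonneg p0 p1 ((hV.af ⟨p0.le, p1.le⟩).nonneg z.1 z.2)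
    ((hV.af ⟨p0.le, p1.le⟩).le_one z.1 z.2)

theorem JJ_push {p : ℝ} (hp : p ∈ Set.Icc (0 : ℝ) 1) {V : ℝ → ℝ → ℝ} (hV : K01 V) {e : ℝ}
    (he : e ∈ Set.Icc (0 : ℝ) 1) :
    JJ mu0 (psi p) (fun x y => af e (V x y)) ≤
      e * -Real.log p + (1 - e) * JJ mu0 (psi p) V := by
  have i1 := intg_phi (mu0.prod mu0) (psi_cont p) hV.meas (fun z => hV.nonneg _ _)
    fun z => hV.le_one _ _
  have c := integral_add (integrable_const (e * -Real.log p)) (i1.const_mul (1 - e))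
  rw [integral_const_mul (1 - e)] at c
  simp only [integral_const, probReal_univ, smul_eq_mul, one_mul] at c
  unfold JJ
  rw [← c]
  refine integral_mono (intg_phi _ (psi_cont p) (hV.af he).meas (fun z => (hV.af he).nonneg _ _)
    fun z => (hV.af he).le_one _ _) ((integrable_const _).add (i1.const_mul _)) fun z => ?_
  have := (psi_convex hp).2 (show (1 : ℝ) ∈ Set.Icc (0 : ℝ) 1 from ⟨zero_le_one, le_rfl⟩)
    (show V z.1 z.2 ∈ Set.Icc (0 : ℝ) 1 from ⟨hV.nonneg _ _, hV.le_one _ _⟩) he.1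
    (show 0 ≤ 1 - e by linarith [he.2]) (by ring)
  simp only [smul_eq_mul, mul_one, psi_one] at this
  exact this

theorem exists_min {p t : ℝ} (p0 : 0 < p) (p1 : p < 1) (ht : t ≤ 1) : ∃ V, IsMin p t V := by
  have hp : p ∈ Set.Icc (0 : ℝ) 1 := ⟨p0.le, p1.le⟩
  set S : Set ℝ := {y | ∃ V, G V ∧ t ≤ TA mu0 p p p V ∧ JJ mu0 (psi p) V = y} with hS
  have hne : S.Nonempty := ⟨_, _, G_one, by rw [TA_one]; exact ht, rfl⟩
  have hbd : BddBelow S := ⟨0, by rintro y ⟨V, hV, -, rfl⟩; exact JJ_nonneg p0 p1 hV.1⟩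
  obtain ⟨u, -, hu, hmem⟩ := exists_seq_tendsto_sInf hne hbd
  choose V hV hT hJ using hmem
  have hle : ((Ultrafilter.of (atTop : Filter ℕ) : Ultrafilter ℕ) : Filter ℕ) ≤ atTop :=
    Ultrafilter.of_le _
  obtain ⟨U, hU, hs, h1, h2⟩ := compact_graphon (Ultrafilter.of (atTop : Filter ℕ))
    (fun n => (hV n).1) fun n => (hV n).2
  refine ⟨U, ⟨hU, hs⟩, ge_of_tendsto' (h1 p hp p hp p hp) hT, fun V' hV' hT' => ?_⟩
  have := h2 (psi p) (psi_cont p) (psi_convex hp) (sInf S)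
    (by simpa only [hJ] using hu.mono_left hle)
  exact this.trans (csInf_le hbd ⟨V', hV', hT', rfl⟩)

theorem closed_min {p : ℝ} (p0 : 0 < p) (p1 : p < 1) {C : Set (ℝ × ℝ)} (hC : IsClosed C) :
    IsClosed {t : ℝ | t ≤ 1 / 2 ∧ ∃ V, IsMin p t V ∧ (t, TA mu0 0 1 0 V) ∈ C} := by
  have hp : p ∈ Set.Icc (0 : ℝ) 1 := ⟨p0.le, p1.le⟩
  refine IsSeqClosed.isClosed fun ts t hmem hlim => ?_
  choose hhalf V hV hVC using hmem
  have ht : t ≤ 1 / 2 := le_of_tendsto' hlim hhalf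
  set 𝓤 : Ultrafilter ℕ := Ultrafilter.of (atTop : Filter ℕ) with h𝓤
  have hle : (𝓤 : Filter ℕ) ≤ atTop := Ultrafilter.of_le _
  have hlim' := hlim.mono_left hle
  obtain ⟨U, hU, hs, h1, h2⟩ := compact_graphon 𝓤 (fun n => (hV n).1.1) fun n => (hV n).1.2
  have hJb : ∀ n, JJ mu0 (psi p) (V n) ∈ Set.Icc 0 (-Real.log p) := fun n =>
    ⟨JJ_nonneg p0 p1 (hV n).1.1, by
      rw [← JJ_one]
      exact (hV n).2.2 _ G_one (by rw [TA_one]; linarith [hhalf n])⟩
  obtain ⟨y, -, hy⟩ := (isCompact_Icc (a := (0 : ℝ)) (b := -Real.log p)).ultrafilter_le_nhds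
    (𝓤.map fun n => JJ mu0 (psi p) (V n)) (by
      rw [le_principal_iff]
      exact mem_map.2 (Eventually.of_forall hJb))
  have hy' : Tendsto (fun n => JJ mu0 (psi p) (V n)) 𝓤 (𝓝 y) := hy
  have z0 : (0 : ℝ) ∈ Set.Icc (0 : ℝ) 1 := ⟨le_rfl, zero_le_one⟩
  have z1 : (1 : ℝ) ∈ Set.Icc (0 : ℝ) 1 := ⟨zero_le_one, le_rfl⟩
  refine ⟨ht, U, ⟨⟨hU, hs⟩, le_of_tendsto_of_tendsto' hlim' (h1 p hp p hp p hp)
    fun n => (hV n).2.1, fun V' hV' hT' => ?_⟩,
    hC.mem_of_tendsto (hlim'.prodMk_nhds (h1 0 z0 1 z1 0 z0)) (Eventually.of_forall hVC)⟩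
  refine (h2 (psi p) (psi_cont p) (psi_convex hp) y hy').trans ?_
  have key : ∀ e : ℝ, 0 < e → e ≤ 1 →
      y ≤ e * -Real.log p + (1 - e) * JJ mu0 (psi p) V' := by
    intro e e0 e1
    have he : e ∈ Set.Icc (0 : ℝ) 1 := ⟨e0.le, e1⟩
    have a1 := TA_push mu0 hV'.1 hp he
    have a2 : e ^ 3 ≤ 1 := pow_le_one₀ e0.le e1
    have a3 : 0 < e ^ 3 := by positivity
    have a4 : t < TA mu0 p p p fun x y => af e (V' x y) := by nlinarith
    refine le_of_tendsto hy' ?_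
    filter_upwards [hlim'.eventually (gt_mem_nhds a4)] with n hn
    refine le_trans ((hV n).2.2 _ ⟨hV'.1.af he, fun x y => by rw [hV'.2 x y]⟩ hn.le) ?_
    exact JJ_push hp hV'.1 he
  have hc : Tendsto (fun e : ℝ => e * -Real.log p + (1 - e) * JJ mu0 (psi p) V') (𝓝[>] 0)
      (𝓝 (0 * -Real.log p + (1 - 0) * JJ mu0 (psi p) V')) := by
    refine Tendsto.mono_left ?_ nhdsWithin_le_nhds
    exact Continuous.tendsto (by fun_prop) 0
  simp only [zero_mul, sub_zero, one_mul, zero_add] at hc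
  refine ge_of_tendsto hc ?_
  filter_upwards [Ioc_mem_nhdsGT (show (0 : ℝ) < 1 by norm_num)] with e he
  exact key e he.1 he.2

end Pool.Agent.H299Z.Gr
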