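import Pool.Agent.H299Z.Gr.Step

set_option autoImplicit false
set_option linter.unusedSectionVars false

open MeasureTheory Filter Topology

namespace Pool.Agent.H299Z.Gr

variable {α : Type*} [MeasurableSpace α] (μ : Measure α) [IsProbabilityMeasure μ]

/-- a boolean as a real number -/
def chi (b : Bool) : ℝ := if b then 1 else 0

theorem chi_mem (b : Bool) : 0 ≤ chi b ∧ chi b ≤ 1 := by cases b <;> simp [chi]

theorem intg_test {D : α → α → ℝ} (hD : Kb D) {f g : α → ℝ} (hf : Measurable f) (hg : Measurable g)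
    (hf1 : ∀ x, 0 ≤ f x ∧ f x ≤ 1) (hg1 : ∀ x, 0 ≤ g x ∧ g x ≤ 1) :
    Integrable (fun z : α × α => D z.1 z.2 * (f z.1 * g z.2)) (μ.prod μ) := by
  refine intg (hD.meas.mul ((hf.comp measurable_fst).mul (hg.comp measurable_snd))) 1 fun z => ?_
  rw [abs_mul]
  refine mul_le_one₀ (hD.bdd _ _) (abs_nonneg _) ?_
  rw [abs_of_nonneg (mul_nonneg (hf1 _).1 (hg1 _).1)]
  exact mul_le_one₀ (hf1 _).2 (hg1 _).1 (hg1 _).2

theorem side {D : α → α → ℝ} (hD : Kb D) {f g : α → ℝ} (hf : Measurable f) (hg : Measurable g)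
    (hf1 : ∀ x, 0 ≤ f x ∧ f x ≤ 1) (hg1 : ∀ x, 0 ≤ g x ∧ g x ≤ 1) :
    ∃ s : α → Bool, Measurable s ∧ ∫ z : α × α, D z.1 z.2 * (f z.1 * g z.2) ∂(μ.prod μ) ≤
      ∫ z : α × α, D z.1 z.2 * (chi (s z.1) * g z.2) ∂(μ.prod μ) := by
  classical
  set h : α → ℝ := fun x => ∫ y, D x y * g y ∂μ with hh
  have hm : Measurable h :=
    (StronglyMeasurable.integral_prod_right' (ν := μ)
      (hD.meas.mul (hg.comp measurable_snd)).stronglyMeasurable).measurable
  have hs : Measurable fun x => decide (0 < h x) := by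
    refine measurable_to_bool ?_
    have : (fun x => decide (0 < h x)) ⁻¹' {true} = {x | 0 < h x} := by
      ext x; simp
    rw [this]
    exact measurableSet_lt measurable_const hm
  have hc : Measurable fun x => chi (decide (0 < h x)) := (measurable_of_countable chi).comp hs
  refine ⟨fun x => decide (0 < h x), hs, ?_⟩
  have i1 := intg_test μ hD hf hg hf1 hg1
  have i2 := intg_test μ hD hc hg (fun x => chi_mem _) hg1
  rw [integral_prod _ i1, integral_prod _ i2]
  refine integral_mono i1.integral_prod_left i2.integral_prod_left fun x => ?_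
  have e1 : ∀ c : ℝ, ∫ y, D x y * (c * g y) ∂μ = c * h x := by
    intro c
    rw [hh, ← integral_const_mul]
    exact integral_congr_ae (Eventually.of_forall fun y => by ring)
  show ∫ y, D x y * (f x * g y) ∂μ ≤ ∫ y, D x y * (chi (decide (0 < h x)) * g y) ∂μ
  rw [e1, e1]
  by_cases h0 : 0 < h x
  · simp only [h0, decide_true, chi, if_true]
    exact mul_le_mul_of_nonneg_right (hf1 x).2 h0.le
  · simp only [h0, decide_false, chi]
    simpa using mul_nonpos_of_nonneg_of_nonpos (hf1 x).1 (not_lt.1 h0)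

theorem side2 {D : α → α → ℝ} (hD : Kb D) {f g : α → ℝ} (hf : Measurable f) (hg : Measurable g)
    (hf1 : ∀ x, 0 ≤ f x ∧ f x ≤ 1) (hg1 : ∀ x, 0 ≤ g x ∧ g x ≤ 1) :
    ∃ s t : α → Bool, Measurable s ∧ Measurable t ∧
      ∫ z : α × α, D z.1 z.2 * (f z.1 * g z.2) ∂(μ.prod μ) ≤
      ∫ z : α × α, D z.1 z.2 * (chi (s z.1) * chi (t z.2)) ∂(μ.prod μ) := by
  obtain ⟨s, hs, h1⟩ := side μ hD hf hg hf1 hg1
  have hc : Measurable fun x => chi (s x) := (measurable_of_countable chi).comp hs
  obtain ⟨t, ht, h2⟩ := side μ hD.flip hg hc hg1 (fun x => chi_mem _)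
  refine ⟨s, t, hs, ht, h1.trans ?_⟩
  rw [← integral_prod_swap] at h2
  rw [← integral_prod_swap (fun z : α × α => D z.2 z.1 * (chi (t z.1) * chi (s z.2)))] at h2
  simpa [mul_comm] using h2

theorem exists_st {D : α → α → ℝ} (hD : Kb D) :
    ∃ s t : α → Bool, Measurable s ∧ Measurable t ∧
      CutLe μ D (2 * |∫ z : α × α, D z.1 z.2 * (chi (s z.1) * chi (t z.2)) ∂(μ.prod μ)|) := by
  set S : Set ℝ := {c | ∃ s t : α → Bool, Measurable s ∧ Measurable t ∧
    c = |∫ z : α × α, D z.1 z.2 * (chi (s z.1) * chi (t z.2)) ∂(μ.prod μ)|} with hS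
  have hne : S.Nonempty := ⟨_, fun _ => true, fun _ => true, measurable_const, measurable_const, rfl⟩
  have hbd : BddAbove S := by
    refine ⟨1, ?_⟩
    rintro c ⟨s, t, hs, ht, rfl⟩
    have := norm_integral_le_of_norm_le_const (μ := μ.prod μ) (C := 1)
      (f := fun z : α × α => D z.1 z.2 * (chi (s z.1) * chi (t z.2)))
      (Eventually.of_forall fun z => by
        rw [Real.norm_eq_abs, abs_mul]
        refine mul_le_one₀ (hD.bdd _ _) (abs_nonneg _) ?_
        rw [abs_of_nonneg (mul_nonneg (chi_mem _).1 (chi_mem _).1)]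
        exact mul_le_one₀ (chi_mem _).2 (chi_mem _).1 (chi_mem _).2)
    simpa [Real.norm_eq_abs] using this
  have hcut : CutLe μ D (sSup S) := by
    intro f g hf hg hf1 hg1
    refine abs_le.2 ⟨?_, ?_⟩
    · have hD' : Kb fun x y => -D x y := ⟨hD.meas.neg, fun x y => by simpa using hD.bdd x y⟩
      obtain ⟨s, t, hs, ht, h⟩ := side2 μ hD' hf hg hf1 hg1
      simp only [neg_mul, integral_neg] at h
      have h2 := le_csSup hbd (show _ ∈ S from ⟨s, t, hs, ht, rfl⟩)
      have h3 := neg_abs_le (∫ z : α × α, D z.1 z.2 * (chi (s z.1) * chi (t z.2)) ∂(μ.prod μ))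
      linarith
    · obtain ⟨s, t, hs, ht, h⟩ := side2 μ hD hf hg hf1 hg1
      have h2 := le_csSup hbd (show _ ∈ S from ⟨s, t, hs, ht, rfl⟩)
      exact h.trans ((le_abs_self _).trans h2)
  by_cases h0 : sSup S ≤ 0
  · refine ⟨fun _ => true, fun _ => true, measurable_const, measurable_const, ?_⟩
    intro f g hf hg hf1 hg1
    exact (hcut f g hf hg hf1 hg1).trans (h0.trans (by positivity))
  · have : sSup S / 2 < sSup S := by linarith [not_le.1 h0]
    obtain ⟨c, ⟨s, t, hs, ht, rfl⟩, hc⟩ := exists_lt_of_lt_csSup hne this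
    refine ⟨s, t, hs, ht, ?_⟩
    intro f g hf hg hf1 hg1
    exact (hcut f g hf hg hf1 hg1).trans (by linarith)

/-- recursion on all earlier terms -/
noncomputable def seqc {β : Type*} (F : ∀ k : ℕ, (Fin k → β) → β) (k : ℕ) : β :=
  F k fun j => seqc F j
termination_by k
decreasing_by exact j.2

/-- the first `k` coordinates -/
def lev (k : ℕ) (ω : ℕ → Bool × Bool) : Fin k → Bool × Bool := fun i => ω i

theorem lev_meas (k : ℕ) : Measurable (lev k) :=
  measurable_pi_lambda _ fun _ => measurable_pi_apply _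

theorem CutLe.mono {D : α → α → ℝ} {ε ε' : ℝ} (h : CutLe μ D ε) (hε : ε ≤ ε') : CutLe μ D ε' :=
  fun f g hf hg hf1 hg1 => (h f g hf hg hf1 hg1).trans hε

theorem exists_refining {W : α → α → ℝ} (hW : K01 W) :
    ∃ π : α → ℕ → Bool × Bool, Measurable π ∧ ∀ k : ℕ,
      CutLe μ (fun x y => W x y - step μ W (fun x => lev k (π x)) x y)
        (2 * |∫ z : α × α, (W z.1 z.2 - step μ W (fun x => lev k (π x)) z.1 z.2) *
          (chi (π z.1 k).1 * chi (π z.2 k).2) ∂(μ.prod μ)|) := by
  have key : ∀ (k : ℕ) (prev : Fin k → {f : α → Bool × Bool // Measurable f}),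
      ∃ nw : {f : α → Bool × Bool // Measurable f},
      CutLe μ (fun x y => W x y - step μ W (fun x i => (prev i).1 x) x y)
        (2 * |∫ z : α × α, (W z.1 z.2 - step μ W (fun x i => (prev i).1 x) z.1 z.2) *
          (chi (nw.1 z.1).1 * chi (nw.1 z.2).2) ∂(μ.prod μ)|) := by
    intro k prev
    have ha : Measurable fun (x : α) (i : Fin k) => (prev i).1 x :=
      measurable_pi_lambda _ fun i => (prev i).2
    obtain ⟨s, t, hs, ht, h⟩ := exists_st μ (hW.sub_kb (step_k01 μ hW ha))
    exact ⟨⟨fun x => (s x, t x), hs.prodMk ht⟩, h⟩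
  choose F hF using key
  refine ⟨fun x k => (seqc F k).1 x, measurable_pi_lambda _ fun k => (seqc F k).2, fun k => ?_⟩
  have := hF k fun j => seqc F j
  have e : F k (fun j => seqc F j) = seqc F k := by rw [seqc]
  rw [e] at this
  exact this

theorem res_succ {W : α → α → ℝ} (hW : K01 W) {π : α → ℕ → Bool × Bool} (hπ : Measurable π)
    (k : ℕ) : res μ W (fun x => lev (k + 1) (π x)) ≤ res μ W (fun x => lev k (π x)) -
      (∫ z : α × α, (W z.1 z.2 - step μ W (fun x => lev k (π x)) z.1 z.2) *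
          (chi (π z.1 k).1 * chi (π z.2 k).2) ∂(μ.prod μ)) ^ 2 := by
  set c := ∫ z : α × α, (W z.1 z.2 - step μ W (fun x => lev k (π x)) z.1 z.2) *
          (chi (π z.1 k).1 * chi (π z.2 k).2) ∂(μ.prod μ) with hc
  have ha : Measurable fun x => lev k (π x) := (lev_meas k).comp hπ
  have ha' : Measurable fun x => lev (k + 1) (π x) := (lev_meas (k + 1)).comp hπ
  have hD := hW.sub_kb (step_k01 μ hW ha)
  have h1 := res_le μ hW ha' (fun i j => cd μ W (fun x => lev k (π x)) (fun l => i l.castSucc)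
    (fun l => j l.castSucc) + c * (chi (i (Fin.last k)).1 * chi (j (Fin.last k)).2))
  refine h1.trans ?_
  have hf : Measurable fun x => chi (π x k).1 :=
    (measurable_of_countable chi).comp ((measurable_pi_apply k).comp hπ).fst
  have hg : Measurable fun x => chi (π x k).2 :=
    (measurable_of_countable chi).comp ((measurable_pi_apply k).comp hπ).snd
  have i1 := (kb_sq hD).intg μ
  have i2 := intg_test μ hD hf hg (fun _ => chi_mem _) (fun _ => chi_mem _)
  have h2 : ∫ z : α × α, ((W z.1 z.2 - step μ W (fun x => lev k (π x)) z.1 z.2) ^ 2 +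
      (-2 * c) * ((W z.1 z.2 - step μ W (fun x => lev k (π x)) z.1 z.2) *
          (chi (π z.1 k).1 * chi (π z.2 k).2)) + c ^ 2) ∂(μ.prod μ) =
      res μ W (fun x => lev k (π x)) - c ^ 2 := by
    rw [int_add3 i1 (i2.const_mul _) (integrable_const _), integral_const_mul, ← hc]
    simp only [integral_const, probReal_univ, smul_eq_mul, one_mul]
    unfold res
    ring
  rw [← h2]
  refine integral_mono_of_nonneg (Eventually.of_forall fun z => sq_nonneg _)
    ((i1.add (i2.const_mul _)).add (integrable_const _)) (Eventually.of_forall fun z => ?_)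
  have e : cd μ W (fun x => lev k (π x)) (fun l => lev (k + 1) (π z.1) l.castSucc)
      (fun l => lev (k + 1) (π z.2) l.castSucc) = step μ W (fun x => lev k (π x)) z.1 z.2 := rfl
  have e1 : lev (k + 1) (π z.1) (Fin.last k) = π z.1 k := rfl
  have e2 : lev (k + 1) (π z.2) (Fin.last k) = π z.2 k := rfl
  simp only [e, e1, e2]
  have hb : (chi (π z.1 k).1 * chi (π z.2 k).2) ^ 2 ≤ 1 :=
    pow_le_one₀ (mul_nonneg (chi_mem _).1 (chi_mem _).1)
      (mul_le_one₀ (chi_mem _).2 (chi_mem _).1 (chi_mem _).2)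
  nlinarith [mul_le_mul_of_nonneg_left hb (sq_nonneg c)]

/-- weak regularity -/
theorem weak_reg {W : α → α → ℝ} (hW : K01 W) :
    ∃ π : α → ℕ → Bool × Bool, Measurable π ∧ ∀ K : ℕ, ∃ j, K ≤ j ∧ j ≤ 2 * K ∧
      CutLe μ (fun x y => W x y - step μ W (fun x => lev j (π x)) x y)
        (2 / Real.sqrt (K + 1)) := by
  obtain ⟨π, hπ, h⟩ := exists_refining μ hW
  refine ⟨π, hπ, fun K => ?_⟩
  set c : ℕ → ℝ := fun k => ∫ z : α × α, (W z.1 z.2 - step μ W (fun x => lev k (π x)) z.1 z.2) *
          (chi (π z.1 k).1 * chi (π z.2 k).2) ∂(μ.prod μ) with hc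
  set R : ℕ → ℝ := fun k => res μ W (fun x => lev k (π x)) with hR
  have hstep : ∀ k, R (k + 1) ≤ R k - c k ^ 2 := fun k => res_succ μ hW hπ k
  have hex : ∃ j, K ≤ j ∧ j ≤ 2 * K ∧ c j ^ 2 ≤ 1 / (K + 1 : ℝ) := by
    by_contra hcon
    push Not at hcon
    have hind : ∀ n : ℕ, n ≤ K → R (K + n + 1) < R K - (n + 1) * (1 / (K + 1 : ℝ)) := by
      intro n
      induction n with
      | zero =>
        intro _
        have := hcon K le_rfl (by omega)
        have := hstep K
        simp only [add_zero, Nat.cast_zero, zero_add, one_mul]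
        linarith
      | succ n ih =>
        intro hn
        have h1 := ih (by omega)
        have h2 := hcon (K + n + 1) (by omega) (by omega)
        have h3 := hstep (K + n + 1)
        have e : K + (n + 1) + 1 = K + n + 1 + 1 := by ring
        rw [e]
        push_cast
        linarith
    have h1 := hind K le_rfl
    have h2 : R K ≤ 1 := res_le_one μ hW ((lev_meas K).comp hπ)
    have h3 : 0 ≤ R (K + K + 1) := res_nonneg μ _ _
    have h4 : ((K : ℝ) + 1) * (1 / (K + 1 : ℝ)) = 1 := by field_simp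
    linarith
  obtain ⟨j, h1, h2, h3⟩ := hex
  refine ⟨j, h1, h2, (h j).mono μ ?_⟩
  have hpos : 0 < Real.sqrt (K + 1) := Real.sqrt_pos.2 (by positivity)
  have : |c j| ≤ 1 / Real.sqrt (K + 1) := by
    refine abs_le_of_sq_le_sq ?_ (by positivity)
    rw [div_pow, Real.sq_sqrt (by positivity)]
    simpa using h3
  calc 2 * |c j| ≤ 2 * (1 / Real.sqrt (K + 1)) := by gcongr
    _ = _ := by ring

end Pool.Agent.H299Z.Gr
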