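import Pool.Agent.H299Z.Gr.Basic

set_option autoImplicit false
set_option linter.unusedSectionVars false

open MeasureTheory Filter Topology

namespace Pool.Agent.H299Z.Gr

variable {α : Type*} [MeasurableSpace α] (μ : Measure α) [IsProbabilityMeasure μ]
variable {ι : Type*} [Fintype ι] [DecidableEq ι] [MeasurableSpace ι] [DiscreteMeasurableSpace ι]

/-- indicator of a cell -/
def ind (i k : ι) : ℝ := if k = i then 1 else 0

theorem ind_nonneg (i k : ι) : 0 ≤ ind i k := by unfold ind; split_ifs <;> norm_num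

theorem ind_le_one (i k : ι) : ind i k ≤ 1 := by unfold ind; split_ifs <;> norm_num

theorem abs_ind (i k : ι) : |ind i k| ≤ 1 := by
  rw [abs_of_nonneg (ind_nonneg i k)]; exact ind_le_one i k

theorem sum_ind (k : ι) (f : ι → ℝ) : ∑ i, ind i k * f i = f k := by
  simp [ind]

/-- measure of a cell -/
noncomputable def cm (a : α → ι) (i : ι) : ℝ := ∫ x, ind i (a x) ∂μ

/-- mass of the kernel on a product of two cells -/
noncomputable def ce (W : α → α → ℝ) (a : α → ι) (i j : ι) : ℝ :=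
  ∫ z : α × α, W z.1 z.2 * (ind i (a z.1) * ind j (a z.2)) ∂(μ.prod μ)

/-- density of the kernel on a product of two cells -/
noncomputable def cd (W : α → α → ℝ) (a : α → ι) (i j : ι) : ℝ :=
  ce μ W a i j / (cm μ a i * cm μ a j)

/-- the step kernel -/
noncomputable def step (W : α → α → ℝ) (a : α → ι) (x y : α) : ℝ := cd μ W a (a x) (a y)

theorem meas_cell {a : α → ι} (ha : Measurable a) (f : ι → ℝ) : Measurable fun x => f (a x) :=
  (measurable_of_countable f).comp ha

theorem meas_cell2 {a : α → ι} (ha : Measurable a) (g : ι → ι → ℝ) :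
    Measurable fun z : α × α => g (a z.1) (a z.2) :=
  (measurable_of_countable (fun w : ι × ι => g w.1 w.2)).comp
    ((ha.comp measurable_fst).prodMk (ha.comp measurable_snd))

theorem cm_nonneg (a : α → ι) (i : ι) : 0 ≤ cm μ a i := integral_nonneg fun _ => ind_nonneg _ _

theorem int_cell {a : α → ι} (ha : Measurable a) (f : ι → ℝ) :
    ∫ x, f (a x) ∂μ = ∑ i, cm μ a i * f i := by
  have : ∀ x, f (a x) = ∑ i, ind i (a x) * f i := fun x => (sum_ind _ _).symm
  simp_rw [this]
  rw [integral_finsetSum]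
  · exact Finset.sum_congr rfl fun i _ => by rw [integral_mul_const]; rfl
  · intro i _
    exact (intg (meas_cell ha (ind i)) 1 fun x => abs_ind _ _).mul_const _

theorem intg_ii {W : α → α → ℝ} (hW : Kb W) {a : α → ι} (ha : Measurable a) (i j : ι) :
    Integrable (fun z : α × α => W z.1 z.2 * (ind i (a z.1) * ind j (a z.2))) (μ.prod μ) := by
  refine intg (hW.meas.mul (meas_cell2 ha fun k l => ind i k * ind j l)) 1 fun z => ?_
  rw [abs_mul, abs_mul]
  exact mul_le_one₀ (hW.bdd _ _) (by positivity)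
    (mul_le_one₀ (abs_ind _ _) (abs_nonneg _) (abs_ind _ _))

theorem cell2_eq (g : ι → ι → ℝ) (k l : ι) (w : ℝ) :
    w * g k l = ∑ i, ∑ j, w * (ind i k * ind j l) * g i j := by
  have : ∀ i, ∑ j, w * (ind i k * ind j l) * g i j = ind i k * (w * g i l) := by
    intro i
    rw [← sum_ind l (fun j => ind i k * (w * g i j))]
    exact Finset.sum_congr rfl fun j _ => by ring
  simp_rw [this]
  exact (sum_ind k fun i => w * g i l).symm

theorem intg_cell2 {W : α → α → ℝ} (hW : Kb W) {a : α → ι} (ha : Measurable a) (g : ι → ι → ℝ) :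
    Integrable (fun z : α × α => W z.1 z.2 * g (a z.1) (a z.2)) (μ.prod μ) := by
  have e : (fun z : α × α => W z.1 z.2 * g (a z.1) (a z.2)) = fun z : α × α =>
      ∑ i, ∑ j, W z.1 z.2 * (ind i (a z.1) * ind j (a z.2)) * g i j := by
    funext z; exact cell2_eq g _ _ _
  rw [e]
  exact integrable_finsetSum _ fun i _ => integrable_finsetSum _ fun j _ =>
    (intg_ii μ hW ha i j).mul_const _

theorem int_cell2W {W : α → α → ℝ} (hW : Kb W) {a : α → ι} (ha : Measurable a) (g : ι → ι → ℝ) :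
    ∫ z : α × α, W z.1 z.2 * g (a z.1) (a z.2) ∂(μ.prod μ) = ∑ i, ∑ j, ce μ W a i j * g i j := by
  have e : (fun z : α × α => W z.1 z.2 * g (a z.1) (a z.2)) = fun z : α × α =>
      ∑ i, ∑ j, W z.1 z.2 * (ind i (a z.1) * ind j (a z.2)) * g i j := by
    funext z; exact cell2_eq g _ _ _
  rw [e, integral_finsetSum]
  · refine Finset.sum_congr rfl fun i _ => ?_
    rw [integral_finsetSum]
    · exact Finset.sum_congr rfl fun j _ => by rw [integral_mul_const]; rfl
    · intro j _
      exact (intg_ii μ hW ha i j).mul_const _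
  · intro i _
    exact integrable_finsetSum _ fun j _ => (intg_ii μ hW ha i j).mul_const _

theorem ce_one (a : α → ι) (i j : ι) : ce μ (fun _ _ => 1) a i j = cm μ a i * cm μ a j := by
  unfold ce cm
  simp only [one_mul]
  exact integral_prod_mul (fun x => ind i (a x)) (fun x => ind j (a x))

theorem ce_nonneg {W : α → α → ℝ} (hW : K01 W) (a : α → ι) (i j : ι) : 0 ≤ ce μ W a i j :=
  integral_nonneg fun _ => mul_nonneg (hW.nonneg _ _) (mul_nonneg (ind_nonneg _ _) (ind_nonneg _ _))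

theorem ce_le {W : α → α → ℝ} (hW : K01 W) {a : α → ι} (ha : Measurable a) (i j : ι) :
    ce μ W a i j ≤ cm μ a i * cm μ a j := by
  rw [← ce_one]
  exact integral_mono (intg_ii μ hW.kb ha i j) (intg_ii μ k01_one.kb ha i j) fun z =>
    mul_le_mul_of_nonneg_right (hW.le_one _ _) (mul_nonneg (ind_nonneg _ _) (ind_nonneg _ _))

theorem cd_nonneg {W : α → α → ℝ} (hW : K01 W) (a : α → ι) (i j : ι) : 0 ≤ cd μ W a i j :=
  div_nonneg (ce_nonneg μ hW a i j) (mul_nonneg (cm_nonneg μ a i) (cm_nonneg μ a j))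

theorem cd_le_one {W : α → α → ℝ} (hW : K01 W) {a : α → ι} (ha : Measurable a) (i j : ι) :
    cd μ W a i j ≤ 1 :=
  div_le_one_of_le₀ (ce_le μ hW ha i j) (mul_nonneg (cm_nonneg μ a i) (cm_nonneg μ a j))

theorem cm_mul_cd {W : α → α → ℝ} (hW : K01 W) {a : α → ι} (ha : Measurable a) (i j : ι) :
    cm μ a i * cm μ a j * cd μ W a i j = ce μ W a i j := by
  by_cases h : cm μ a i * cm μ a j = 0
  · have h1 := ce_le μ hW ha i j
    have h2 := ce_nonneg μ hW a i j
    rw [h] at h1 ⊢
    linarith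
  · unfold cd
    exact mul_div_cancel₀ _ h

theorem step_k01 {W : α → α → ℝ} (hW : K01 W) {a : α → ι} (ha : Measurable a) :
    K01 (step μ W a) :=
  ⟨meas_cell2 ha (cd μ W a), fun _ _ => cd_nonneg μ hW a _ _, fun _ _ => cd_le_one μ hW ha _ _⟩

theorem step_orth {W : α → α → ℝ} (hW : K01 W) {a : α → ι} (ha : Measurable a) (g : ι → ι → ℝ) :
    ∫ z : α × α, (W z.1 z.2 - step μ W a z.1 z.2) * g (a z.1) (a z.2) ∂(μ.prod μ) = 0 := by
  have e : (fun z : α × α => (W z.1 z.2 - step μ W a z.1 z.2) * g (a z.1) (a z.2)) =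
      fun z : α × α => W z.1 z.2 * g (a z.1) (a z.2) -
        (fun _ _ : α => (1 : ℝ)) z.1 z.2 * (fun i j => cd μ W a i j * g i j) (a z.1) (a z.2) := by
    funext z
    simp only [step]
    ring
  rw [e, integral_sub (intg_cell2 μ hW.kb ha g)
    (intg_cell2 μ k01_one.kb ha fun i j => cd μ W a i j * g i j), int_cell2W μ hW.kb ha,
    int_cell2W μ k01_one.kb ha (fun i j => cd μ W a i j * g i j), sub_eq_zero]
  refine Finset.sum_congr rfl fun i _ => Finset.sum_congr rfl fun j _ => ?_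
  rw [ce_one, ← cm_mul_cd μ hW ha i j]
  ring

theorem kb_sq {D : α → α → ℝ} (hD : Kb D) : Kb fun x y => D x y ^ 2 :=
  ⟨hD.meas.pow_const 2, fun x y => by
    rw [abs_pow]; exact pow_le_one₀ (abs_nonneg _) (hD.bdd x y)⟩

theorem Kb.intg {D : α → α → ℝ} (hD : Kb D) : Integrable (fun z : α × α => D z.1 z.2) (μ.prod μ) :=
  Gr.intg hD.meas 1 fun _ => hD.bdd _ _

/-- the squared distance to the step kernel -/
noncomputable def res (W : α → α → ℝ) (a : α → ι) : ℝ :=
  ∫ z : α × α, (W z.1 z.2 - step μ W a z.1 z.2) ^ 2 ∂(μ.prod μ)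

theorem res_nonneg (W : α → α → ℝ) (a : α → ι) : 0 ≤ res μ W a :=
  integral_nonneg fun _ => sq_nonneg _

theorem res_le_one {W : α → α → ℝ} (hW : K01 W) {a : α → ι} (ha : Measurable a) :
    res μ W a ≤ 1 := by
  have h := kb_sq (hW.sub_kb (step_k01 μ hW ha))
  have : res μ W a ≤ ∫ _z : α × α, (1 : ℝ) ∂(μ.prod μ) :=
    integral_mono (h.intg μ) (integrable_const _) fun z => (le_abs_self _).trans (h.bdd _ _)
  simpa using this

/-- the step kernel is the best approximation -/
theorem res_le {W : α → α → ℝ} (hW : K01 W) {a : α → ι} (ha : Measurable a) (g : ι → ι → ℝ) :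
    res μ W a ≤ ∫ z : α × α, (W z.1 z.2 - g (a z.1) (a z.2)) ^ 2 ∂(μ.prod μ) := by
  have hD := hW.sub_kb (step_k01 μ hW ha)
  have e : (fun z : α × α => (W z.1 z.2 - g (a z.1) (a z.2)) ^ 2) =
      fun z : α × α => (W z.1 z.2 - step μ W a z.1 z.2) ^ 2 +
        (W z.1 z.2 - step μ W a z.1 z.2) * (fun i j => 2 * (cd μ W a i j - g i j)) (a z.1) (a z.2) +
        (fun _ _ : α => (1 : ℝ)) z.1 z.2 * (fun i j => (cd μ W a i j - g i j) ^ 2) (a z.1) (a z.2) := by
    funext z
    simp only [step]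
    ring
  rw [e, int_add3 ((kb_sq hD).intg μ) (intg_cell2 μ hD ha fun i j => 2 * (cd μ W a i j - g i j))
    (intg_cell2 μ k01_one.kb ha fun i j => (cd μ W a i j - g i j) ^ 2),
    step_orth μ hW ha (fun i j => 2 * (cd μ W a i j - g i j))]
  have : 0 ≤ ∫ z : α × α, (fun _ _ : α => (1 : ℝ)) z.1 z.2 *
      (fun i j => (cd μ W a i j - g i j) ^ 2) (a z.1) (a z.2) ∂(μ.prod μ) :=
    integral_nonneg fun z => by simp only [one_mul]; exact sq_nonneg _
  unfold res
  linarith

theorem tri_cell {a : α → ι} (ha : Measurable a) (f g h : ι → ι → ℝ)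
    (hf : ∀ i j, |f i j| ≤ 1) (hg : ∀ i j, |g i j| ≤ 1) (hh : ∀ i j, |h i j| ≤ 1) :
    Tri μ (fun x y => f (a x) (a y)) (fun x y => g (a x) (a y)) (fun x y => h (a x) (a y)) =
      ∑ i, ∑ j, ∑ l, cm μ a i * cm μ a j * cm μ a l * (f i j * g j l * h i l) := by
  have kf : Kb fun x y => f (a x) (a y) := ⟨meas_cell2 ha f, fun _ _ => hf _ _⟩
  have kg : Kb fun x y => g (a x) (a y) := ⟨meas_cell2 ha g, fun _ _ => hg _ _⟩
  have kh : Kb fun x y => h (a x) (a y) := ⟨meas_cell2 ha h, fun _ _ => hh _ _⟩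
  unfold Tri
  rw [integral_prod _ (tri_intg μ kf kg kh)]
  have inner : ∀ x : α, ∫ w : α × α, f (a x) (a w.1) * g (a w.1) (a w.2) * h (a x) (a w.2)
      ∂(μ.prod μ) = (fun i => ∑ j, ∑ l, cm μ a j * cm μ a l * (f i j * g j l * h i l)) (a x) := by
    intro x
    have := int_cell2W μ k01_one.kb ha (fun j l => f (a x) j * g j l * h (a x) l)
    simp only [one_mul, ce_one] at this
    exact this
  simp only [inner]
  rw [int_cell μ ha (fun i => ∑ j, ∑ l, cm μ a j * cm μ a l * (f i j * g j l * h i l))]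
  refine Finset.sum_congr rfl fun i _ => ?_
  rw [Finset.mul_sum]
  refine Finset.sum_congr rfl fun j _ => ?_
  rw [Finset.mul_sum]
  exact Finset.sum_congr rfl fun l _ => by ring

end Pool.Agent.H299Z.Gr
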