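import Pool.Agent.H299Z.Gr.Min

set_option autoImplicit false
set_option linter.unusedSectionVars false

open MeasureTheory Filter Topology

namespace Pool.Agent.H299Z.Gr

/-- indicator of an initial segment -/
noncomputable def seg (a x : ℝ) : ℝ := if x ≤ a then 1 else 0

theorem seg_meas (a : ℝ) : Measurable (seg a) :=
  Measurable.ite measurableSet_Iic measurable_const measurable_const

theorem seg01 (a x : ℝ) : seg a x = 0 ∨ seg a x = 1 := by
  unfold seg; split_ifs <;> simp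

theorem seg_mem (a x : ℝ) : 0 ≤ seg a x ∧ seg a x ≤ 1 := by
  rcases seg01 a x with h | h <;> simp [h]

theorem seg_int {a : ℝ} (h0 : 0 ≤ a) (h1 : a ≤ 1) : ∫ x, seg a x ∂mu0 = a := by
  have : seg a = (Set.Iic a).indicator 1 := by
    funext x; simp [seg, Set.indicator]
  rw [this, integral_indicator_one measurableSet_Iic, measureReal_restrict_apply measurableSet_Iic]
  have : Set.Iic a ∩ Set.Icc (0 : ℝ) 1 = Set.Icc 0 a := by
    ext x
    simp only [Set.mem_inter_iff, Set.mem_Iic, Set.mem_Icc]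
    constructor
    · rintro ⟨h, h', -⟩; exact ⟨h', h⟩
    · rintro ⟨h, h'⟩; exact ⟨h', h, h'.trans h1⟩
  rw [this]
  simp [h0]

theorem seg_intg (a : ℝ) : Integrable (seg a) mu0 :=
  intg (seg_meas a) 1 fun x => by rw [abs_of_nonneg (seg_mem a x).1]; exact (seg_mem a x).2

theorem TA_expand {p : ℝ} (hp : p ∈ Set.Icc (0 : ℝ) 1) {V : ℝ → ℝ → ℝ} (hV : G V) :
    TA mu0 p p p V = p ^ 3 + 3 * p ^ 2 * (∫ z : ℝ × ℝ, (1 - p) * V z.1 z.2 ∂(mu0.prod mu0)) +
      3 * p * ((1 - p) ^ 2 * TA mu0 0 1 0 V) + Tri mu0 (fun x y => (1 - p) * V x y)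
        (fun x y => (1 - p) * V x y) (fun x y => (1 - p) * V x y) := by
  rw [← ch_scale]
  exact expand3 mu0 (hV.1.scale hp) (fun x y => by rw [hV.2 x y]) p

theorem TA010 (V : ℝ → ℝ → ℝ) : TA mu0 0 1 0 V = Tri mu0 V (fun _ _ => 1) V := by
  simp [TA, af]

theorem hub {p a : ℝ} (p0 : 0 < p) (p1 : p < 1) (h0 : 0 ≤ a) (h1 : a ≤ 1) :
    ∃ V, G V ∧ p ^ 3 + 3 * p * ((1 - p) ^ 2 * a) ≤ TA mu0 p p p V ∧
      JJ mu0 (psi p) V ≤ 2 * a * -Real.log p := by
  have hp : p ∈ Set.Icc (0 : ℝ) 1 := ⟨p0.le, p1.le⟩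
  have hlog : 0 ≤ -Real.log p := by linarith [Real.log_nonpos p0.le p1.le]
  have kV : K01 fun x y => 1 - (1 - seg a x) * (1 - seg a y) := by
    refine ⟨measurable_const.sub ((measurable_const.sub ((seg_meas a).comp measurable_fst)).mul
      (measurable_const.sub ((seg_meas a).comp measurable_snd))), fun x y => ?_, fun x y => ?_⟩ <;>
    rcases seg01 a x with h | h <;> rcases seg01 a y with h' | h' <;> simp [h, h']
  have gV : G fun x y => 1 - (1 - seg a x) * (1 - seg a y) := ⟨kV, fun x y => by ring⟩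
  refine ⟨_, gV, ?_, ?_⟩
  · rw [TA_expand hp gV]
    have a1 : 0 ≤ ∫ z : ℝ × ℝ, (1 - p) * (1 - (1 - seg a z.1) * (1 - seg a z.2)) ∂(mu0.prod mu0) :=
      integral_nonneg fun z => (kV.scale hp).nonneg _ _
    have a2 := tri_nonneg mu0 (kV.scale hp) (kV.scale hp) (kV.scale hp)
    have a3 : a ≤ TA mu0 0 1 0 fun x y => 1 - (1 - seg a x) * (1 - seg a y) := by
      rw [TA010, tri_cherry mu0 kV]
      refine le_trans (seg_int h0 h1).ge (integral_mono (seg_intg a) ?_ fun x => ?_)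
      · exact intg ((meas_row mu0 kV.meas).pow_const 2) 1 fun x => by
          rw [abs_of_nonneg (sq_nonneg _)]
          exact pow_le_one₀ (kV.deg_mem mu0 x).1 (kV.deg_mem mu0 x).2
      · rcases seg01 a x with h | h
        · rw [h]; exact sq_nonneg _
        · simp [h]
    have a4 : 3 * p * ((1 - p) ^ 2 * a) ≤ 3 * p * ((1 - p) ^ 2 *
      TA mu0 0 1 0 fun x y => 1 - (1 - seg a x) * (1 - seg a y)) := by gcongr
    have a5 := mul_nonneg (show 0 ≤ 3 * p ^ 2 by positivity) a1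
    linarith
  · have i1 : Integrable (fun z : ℝ × ℝ => seg a z.1) (mu0.prod mu0) :=
      (k01_fst (seg_meas a) (seg_mem a)).kb.intg mu0
    have i2 : Integrable (fun z : ℝ × ℝ => seg a z.2) (mu0.prod mu0) :=
      (k01_fst (seg_meas a) (seg_mem a)).flip.kb.intg mu0
    have e : 2 * a * -Real.log p =
        ∫ z : ℝ × ℝ, (seg a z.1 + seg a z.2) * -Real.log p ∂(mu0.prod mu0) := by
      rw [integral_mul_const, integral_add i1 i2, integral_fun_fst, integral_fun_snd, seg_int h0 h1]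
      simp only [probReal_univ, smul_eq_mul, one_mul]
      ring
    rw [e]
    refine integral_mono (intg_phi _ (psi_cont p) kV.meas (fun z => kV.nonneg _ _)
      fun z => kV.le_one _ _) ((i1.add i2).mul_const _) fun z => ?_
    rcases seg01 a z.1 with h | h <;> rcases seg01 a z.2 with h' | h' <;>
      simp [h, h', psi_one, psi_zero] <;> linarith

theorem clique {p a : ℝ} (p0 : 0 < p) (p1 : p < 1) (h0 : 0 ≤ a) (h1 : a ≤ 1) :
    ∃ V, G V ∧ p ^ 3 + ((1 - p) * a) ^ 3 ≤ TA mu0 p p p V ∧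
      JJ mu0 (psi p) V = a ^ 2 * -Real.log p := by
  have hp : p ∈ Set.Icc (0 : ℝ) 1 := ⟨p0.le, p1.le⟩
  have kc := k01_fst (seg_meas a) (seg_mem a)
  have kV : K01 fun x y => seg a x * seg a y := kc.mul kc.flip
  have gV : G fun x y => seg a x * seg a y := ⟨kV, fun x y => by ring⟩
  have e2 : ∫ z : ℝ × ℝ, seg a z.1 * seg a z.2 ∂(mu0.prod mu0) = a ^ 2 := by
    rw [integral_prod_mul (seg a) (seg a), seg_int h0 h1, pow_two]
  refine ⟨_, gV, ?_, ?_⟩
  · rw [TA_expand hp gV]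
    have a1 : 0 ≤ ∫ z : ℝ × ℝ, (1 - p) * (seg a z.1 * seg a z.2) ∂(mu0.prod mu0) :=
      integral_nonneg fun z => (kV.scale hp).nonneg _ _
    have a2 : 0 ≤ TA mu0 0 1 0 fun x y => seg a x * seg a y := by
      rw [TA010]; exact tri_nonneg mu0 kV k01_one kV
    have a3 : Tri mu0 (fun x y => (1 - p) * (seg a x * seg a y))
        (fun x y => (1 - p) * (seg a x * seg a y)) (fun x y => (1 - p) * (seg a x * seg a y)) =
        ((1 - p) * a) ^ 3 := by
      have b := tri_c mu0 (fun x y => seg a x * seg a y) (seg a)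
      rw [e2, seg_int h0 h1] at b
      have : ((1 - p) * a) ^ 3 = (1 - p) ^ 3 * (a * a ^ 2) := by ring
      rw [this, ← b]
      unfold Tri
      rw [← integral_const_mul]
      refine integral_congr_ae (Eventually.of_forall fun q => ?_)
      rcases seg01 a q.1 with h | h <;> rcases seg01 a q.2.1 with h' | h' <;>
        rcases seg01 a q.2.2 with h'' | h'' <;> simp only [h, h', h''] <;> ring
    have a4 := mul_nonneg (show 0 ≤ 3 * p by positivity)
      (mul_nonneg (sq_nonneg (1 - p)) a2)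
    have a5 := mul_nonneg (show 0 ≤ 3 * p ^ 2 by positivity) a1
    linarith
  · rw [← e2, ← integral_mul_const]
    refine integral_congr_ae (Eventually.of_forall fun z => ?_)
    rcases seg01 a z.1 with h | h <;> rcases seg01 a z.2 with h' | h' <;>
      simp [h, h', psi_one, psi_zero]

namespace Par

variable {p q L : ℝ} (P : Par p q L)
include P

theorem hub' {t : ℝ} (h0 : p ^ 3 ≤ t) (h1 : t ≤ 9 * p ^ 3) :
    ∃ V, G V ∧ t ≤ TA mu0 p p p V ∧
      p * JJ mu0 (psi p) V ≤ 101 / 100 * (2 / 3) * (t - p ^ 3) * L := by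
  have p0 := P.p0
  have ps := P.p_small
  have hL := P.hL
  have hq : 100 / 101 ≤ (1 - p) ^ 2 := by nlinarith
  have hpos : 0 < 3 * p * (1 - p) ^ 2 := by positivity
  set a := (t - p ^ 3) / (3 * p * (1 - p) ^ 2) with ha
  have a0 : 0 ≤ a := div_nonneg (by linarith) hpos.le
  have ea : 3 * p * ((1 - p) ^ 2 * a) = t - p ^ 3 := by
    rw [← mul_assoc, ha]; exact mul_div_cancel₀ _ hpos.ne'
  have a2 : 3 * p * a ≤ 101 / 100 * (t - p ^ 3) := by
    rw [← ea]
    have : 0 ≤ p * a := mul_nonneg p0.le a0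
    nlinarith
  have a1 : a ≤ 1 := by
    have : 3 * p * a ≤ 3 * p * 1 := by
      have : p ^ 3 ≤ p * (1 / 100) := by nlinarith
      linarith
    exact le_of_mul_le_mul_left this (by positivity)
  obtain ⟨V, hV, hT, hJ⟩ := hub p0 P.p1 a0 a1
  refine ⟨V, hV, by linarith, ?_⟩
  rw [P.hlog, neg_neg] at hJ
  have := mul_le_mul_of_nonneg_left hJ p0.le
  rw [hL] at *
  nlinarith

theorem min_facts {t : ℝ} (h0 : p ^ 3 ≤ t) (h1 : t ≤ 9 * p ^ 3) {V : ℝ → ℝ → ℝ}
    (hV : IsMin p t V) :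
    p * JJ mu0 (psi p) V ≤ 101 / 100 * (2 / 3) * (t - p ^ 3) * L ∧
    98 / 100 * L * (2 * ((1 - p) ^ 2 * TA mu0 0 1 0 V) - 4 / 100 * p ^ 2) ≤ JJ mu0 (psi p) V ∧
    (p ^ 3 ≤ t - p ^ 3 - 3 * p * ((1 - p) ^ 2 * TA mu0 0 1 0 V) →
      98 / 100 * L * (2 * ((1 - p) ^ 2 * TA mu0 0 1 0 V) + 94 / 100 * p ^ 2) ≤
        JJ mu0 (psi p) V) := by
  have p0 := P.p0
  have hp : p ∈ Set.Icc (0 : ℝ) 1 := ⟨p0.le, P.p1.le⟩
  have hL := P.hL
  obtain ⟨V', hV', hT', hJ'⟩ := P.hub' h0 h1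
  have a1 : p * JJ mu0 (psi p) V ≤ 101 / 100 * (2 / 3) * (t - p ^ 3) * L :=
    (mul_le_mul_of_nonneg_left (hV.2.2 V' hV' hT') p0.le).trans hJ'
  have a2 : JJ mu0 (psi p) V ≤ 6 * p ^ 2 * L := by
    have : p * JJ mu0 (psi p) V ≤ p * (6 * p ^ 2 * L) := by
      have : 0 < p ^ 3 := by positivity
      rw [hL] at *
      nlinarith
    exact le_of_mul_le_mul_left this p0
  have hl := lower mu0 P (hV.1.1.scale hp) (fun x y => by rw [hV.1.2 x y])
    (fun x y => (hV.1.1.af hp).le_one x y) a2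
  rw [ch_scale] at hl
  refine ⟨a1, hl.1, fun h => hl.2 ?_⟩
  have := hV.2.1
  rw [TA_expand hp hV.1] at this
  linarith

theorem two_min : ∃ t V1 V2, 3 / 2 * p ^ 3 ≤ t ∧ t ≤ 9 * p ^ 3 ∧ IsMin p t V1 ∧ IsMin p t V2 ∧
    TA mu0 0 1 0 V1 ≠ TA mu0 0 1 0 V2 := by
  have p0 := P.p0
  have p1 := P.p1
  have ps := P.p_small
  have hL := P.hL
  have p3 : 0 < p ^ 3 := by positivity
  have p3' : 9 * p ^ 3 ≤ 1 / 2 := by
    have : p ^ 3 ≤ (1 / 10 ^ 26) ^ 3 := pow_le_pow_left₀ p0.le ps 3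
    have : (1 / 10 ^ 26 : ℝ) ^ 3 ≤ 1 / 100 := by norm_num
    linarith
  have hs : Continuous fun w : ℝ × ℝ => w.1 - p ^ 3 - 3 * p * ((1 - p) ^ 2 * w.2) := by fun_prop
  have cA := closed_min p0 p1 (isClosed_le hs (continuous_const (y := p ^ 3)))
  have cB := closed_min p0 p1 (isClosed_le (continuous_const (y := p ^ 3)) hs)
  obtain ⟨t, ht, ⟨-, V1, m1, s1⟩, -, V2, m2, s2⟩ := isPreconnected_closed_iff.1
    (isPreconnected_Icc (a := 3 / 2 * p ^ 3) (b := 9 * p ^ 3)) _ _ cA cB (by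
      intro t ht
      obtain ⟨V, hV⟩ := exists_min (t := t) p0 p1 (by linarith [ht.2])
      rcases le_total (t - p ^ 3 - 3 * p * ((1 - p) ^ 2 * TA mu0 0 1 0 V)) (p ^ 3) with h | h
      · exact Or.inl ⟨by linarith [ht.2], V, hV, h⟩
      · exact Or.inr ⟨by linarith [ht.2], V, hV, h⟩) (by
      obtain ⟨V, hV⟩ := exists_min (t := 3 / 2 * p ^ 3) p0 p1 (by linarith)
      refine ⟨3 / 2 * p ^ 3, ⟨le_rfl, by linarith⟩, by linarith, V, hV, ?_⟩
      have a2 : 0 ≤ TA mu0 0 1 0 V := by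
        rw [TA010]; exact tri_nonneg mu0 hV.1.1 k01_one hV.1.1
      have a4 := mul_nonneg (show 0 ≤ 3 * p by positivity) (mul_nonneg (sq_nonneg (1 - p)) a2)
      show 3 / 2 * p ^ 3 - p ^ 3 - 3 * p * ((1 - p) ^ 2 * TA mu0 0 1 0 V) ≤ p ^ 3
      linarith) (by
      obtain ⟨V, hV⟩ := exists_min (t := 9 * p ^ 3) p0 p1 (by linarith)
      refine ⟨9 * p ^ 3, ⟨by linarith, le_rfl⟩, p3', V, hV, ?_⟩
      show p ^ 3 ≤ 9 * p ^ 3 - p ^ 3 - 3 * p * ((1 - p) ^ 2 * TA mu0 0 1 0 V)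
      by_contra hcon
      have f := (P.min_facts (by linarith) le_rfl hV).2.1
      have hq : 0 < 1 - p := by linarith
      obtain ⟨V', hV', hT', hJ'⟩ := clique (a := 2 * p / (1 - p)) p0 p1 (by positivity)
        (by rw [div_le_one hq]; linarith)
      rw [mul_div_cancel₀ _ hq.ne'] at hT'
      have g := hV.2.2 V' hV' (by linarith)
      rw [hJ', P.hlog, neg_neg] at g
      have a1 : 2 * p / (1 - p) ≤ 201 / 100 * p := by
        rw [div_le_iff₀ hq]; nlinarith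
      have a2 : (2 * p / (1 - p)) ^ 2 ≤ (201 / 100 * p) ^ 2 :=
        pow_le_pow_left₀ (by positivity) a1 2
      set c := (1 - p) ^ 2 * TA mu0 0 1 0 V with hc
      have a3 : 7 / 3 * p ^ 2 ≤ c := by
        have : p * (7 / 3 * p ^ 2) ≤ p * c := by
          simp only [not_le] at hcon
          nlinarith
        exact le_of_mul_le_mul_left this p0
      have a4 : 0 < p ^ 2 := by positivity
      rw [hL] at *
      nlinarith)
  refine ⟨t, V1, V2, ht.1, ht.2, m1, m2, fun he => ?_⟩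
  have s1' : t - p ^ 3 - 3 * p * ((1 - p) ^ 2 * TA mu0 0 1 0 V1) ≤ p ^ 3 := s1
  have s2' : p ^ 3 ≤ t - p ^ 3 - 3 * p * ((1 - p) ^ 2 * TA mu0 0 1 0 V2) := s2
  rw [← he] at s2'
  obtain ⟨f1, -, f3⟩ := P.min_facts (by linarith [ht.1]) ht.2 m1
  have f4 := mul_le_mul_of_nonneg_left (f3 s2') p0.le
  set c := (1 - p) ^ 2 * TA mu0 0 1 0 V1 with hc
  have := ht.2
  rw [hL] at *
  nlinarith

end Par

end Pool.Agent.H299Z.Gr
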